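import Pool.Agent.Shared.Sing.Alt
import Pool.Agent.Lib.MP_99fcc5_gt.GLA

/-! Two natural retractions of chains of lists that work over every field. -/

namespace Pool.Agent.Lib.MP_99fcc5_gt.Gen

open Finsupp Pool.Agent.Shared.Sing Tree62

variable {R : Type} [CommRing R] {α β : Type*}

lemma bd_lmap (f : α → β) (c : Ch R α) : bd (lmap f c) = lmap f (bd c) :=
  map_eq (F := bd ∘ₗ lmap f) (G := lmap f ∘ₗ bd) (fun l _ => by simp [lmap_bdL]) (mem_top c)

lemma lmap_lmap {γ : Type*} (f : α → β) (g : β → γ) (c : Ch R α) :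
    lmap g (lmap f c) = lmap (g ∘ f) c :=
  map_eq (F := lmap g ∘ₗ lmap f) (fun l _ => by simp) (mem_top c)

section dup

variable {h : List α → Ch R α →ₗ[R] Ch R α}
  (hp : ∀ u a b w, h (u ++ b :: a :: w) = h (u ++ a :: b :: w))
include hp

lemma ret_swap (u : List α) (a b : α) (w : List α) :
    retL h (u ++ a :: b :: w) + retL h (u ++ b :: a :: w) = 0 := by
  induction hn : u.length + w.length using Nat.strong_induction_on generalizing u w with
  | _ n ih =>
    rw [retL_ne _ (by simp), retL_ne (l := u ++ b :: a :: w) _ (by simp), hp, ← map_add,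
      lc_bdL_swap _ u a b w fun u' w' h => ih _ (by omega) u' w' rfl, map_zero]

lemma ret_dup {l : List α} (hl : ¬ l.Nodup) : retL h l = 0 := by
  have key : ∀ {l l' : List α}, l.Perm l' → ∀ u, retL h (u ++ l') = 0 → retL h (u ++ l) = 0 := by
    intro l l' h
    induction h with
    | nil => exact fun _ => id
    | cons x _ ih => exact fun u h => by simpa using ih (u ++ [x]) (by simpa using h)
    | swap x y l => exact fun u h => by simpa [h] using ret_swap hp u y x l
    | trans _ _ ih ih' => exact fun u h => ih u (ih' u h)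
  obtain ⟨a, ha⟩ := List.exists_duplicate_iff_not_nodup.2 hl
  obtain ⟨w, hw⟩ := (List.duplicate_iff_sublist.1 ha).exists_perm_append
  exact key hw [] (retL_deg _ [] a w)

end dup

/-- The first entry of least weight. -/
def pick (w : α → ℕ) : α → List α → α
  | a, [] => a
  | a, b :: l => pick w (if w b < w a then b else a) l

lemma pick_map {w : α → ℕ} {w' : β → ℕ} {f : α → β} (hf : ∀ x, w' (f x) = w x) (a : α)
    (l : List α) : pick w' (f a) (l.map f) = f (pick w a l) := by
  induction l generalizing a with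
  | nil => rfl
  | cons b l ih => rw [List.map_cons, pick, pick, ← ih, hf, hf, apply_ite f]

lemma pick_spec (w : α → ℕ) (a : α) (l : List α) :
    pick w a l ∈ a :: l ∧ ∀ x ∈ a :: l, w (pick w a l) ≤ w x := by
  induction l generalizing a with
  | nil => simp [pick]
  | cons b l ih =>
    obtain ⟨h1, h2⟩ := ih (if w b < w a then b else a)
    rw [pick]
    simp only [List.mem_cons, forall_eq_or_imp] at h1 h2 ⊢
    refine ⟨?_, h2.1.trans ?_, h2.1.trans ?_, h2.2⟩
    · split_ifs at h1 ⊢ <;> tauto
    · split_ifs <;> omega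
    · split_ifs <;> omega

variable (R) in
/-- The cone on the first entry of least weight. -/
noncomputable def mc (w : α → ℕ) : List α → Ch R α →ₗ[R] Ch R α
  | [] => 0
  | a :: l => cone (pick w a l)

lemma mc_spec (w : α → ℕ) (l : List α) (hl : l ≠ []) (x : Ch R α) :
    bd (mc R w l x) + mc R w l (bd x) = x := by
  obtain ⟨a, l, rfl⟩ := List.exists_cons_of_ne_nil hl
  exact bd_cone _ x

lemma mc_nat {w : α → ℕ} {w' : β → ℕ} {f : α → β} (hf : ∀ x, w' (f x) = w x) (l : List α)
    (hl : l ≠ []) (x : Ch R α) : lmap f (mc R w l x) = mc R w' (l.map f) (lmap f x) := by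
  obtain ⟨a, l, rfl⟩ := List.exists_cons_of_ne_nil hl
  rw [List.map_cons, mc, mc, pick_map hf, lmap_cone]

lemma mc_perm {w : α → ℕ} (hw : Function.Injective w) {l l' : List α} (h : l.Perm l') :
    mc R w l = mc R w l' := by
  match l, l', h with
  | [], [], _ => rfl
  | [], _ :: _, h => simp at h
  | _ :: _, [], h => simp at h
  | a :: l, b :: l', h =>
    obtain ⟨h1, h2⟩ := pick_spec w a l
    obtain ⟨h3, h4⟩ := pick_spec w b l'
    rw [mc, mc, hw (le_antisymm (h2 _ (h.mem_iff.2 h3)) (h4 _ (h.mem_iff.1 h1)))]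

/-- Lists whose entries are determined by an index vanish beyond the number of indices. -/
theorem mc_dup {r : ℕ} {P : Type*} [Nonempty P] {l : List (Fin r × P)}
    (h : ∀ x ∈ l, ∀ y ∈ l, x.1 = y.1 → x = y) (hl : r < l.length) :
    retL (mc R fun x : Fin r × P => (x.1 : ℕ)) l = 0 := by
  classical
  let σ (j : Fin r) : Fin r × P :=
    if h : ∃ x ∈ l, x.1 = j then h.choose else (j, Classical.arbitrary P)
  have s1 : ∀ j, (σ j).1 = j := fun j => by
    simp only [σ]
    split_ifs with h
    exacts [h.choose_spec.2, rfl]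
  have s2 : (l.map Prod.fst).map σ = l := by
    rw [List.map_map]
    refine (List.map_congr_left fun x hx => ?_).trans l.map_id
    have h1 : ∃ y ∈ l, y.1 = x.1 := ⟨x, hx, rfl⟩
    exact (dif_pos h1).trans (h _ h1.choose_spec.1 _ hx h1.choose_spec.2)
  rw [← s2, ← lmap_retL (h := mc R fun j : Fin r => (j : ℕ)) (mc_nat fun j => by rw [s1]),
    ret_dup (fun u a b w => mc_perm Fin.val_injective ((List.Perm.swap a b w).append_left u))
      fun h => by have := h.length_le_card; simp at this; omega, map_zero]

variable {F : Type} [Field F] {G : Type} [Group G]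

lemma exists_pair (hG : (2 : F) ≠ 0 ∨ ∀ g : G, g * g = 1 → g = 1) :
    ∃ π : G → G → Ch F G →ₗ[F] Ch F G, (∀ a b, π a b = π b a) ∧
      (∀ a b x, bd (π a b x) + π a b (bd x) = x) ∧
      ∀ g a b x, lmap (g * ·) (π a b x) = π (g * a) (g * b) (lmap (g * ·) x) := by
  classical
  rcases hG with h | h
  · refine ⟨fun a b => (2 : F)⁻¹ • (cone a + cone b), fun a b => by simp only [add_comm],
      fun a b x => ?_, fun g a b x => by simp [lmap_cone]⟩
    simp only [LinearMap.smul_apply, LinearMap.add_apply, map_smul, map_add, ← smul_add]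
    rw [add_add_add_comm, bd_cone, bd_cone, ← two_smul F, smul_smul, inv_mul_cancel₀ h, one_smul]
  · refine ⟨fun a b => cone (if WellOrderingRel (a⁻¹ * b) (b⁻¹ * a) then a else b),
      fun a b => congrArg cone ?_, fun a b x => bd_cone _ x, fun g a b x => ?_⟩
    · rcases trichotomous_of WellOrderingRel (a⁻¹ * b) (b⁻¹ * a) with e | e | e
      · rw [if_pos e, if_neg (asymm_of WellOrderingRel e)]
      · have : a⁻¹ * b = 1 := h _ (by nth_rw 2 [e]; group)
        rw [inv_mul_eq_one.1 this]
      · rw [if_neg (asymm_of WellOrderingRel e), if_pos e]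
    · simp only [lmap_cone, mul_inv_rev, mul_assoc, inv_mul_cancel_left, apply_ite (g * ·)]

/-- An equivariant retraction that kills lists with fewer than three distinct entries. -/
theorem exists_ret (hG : (2 : F) ≠ 0 ∨ ∀ g : G, g * g = 1 → g = 1) :
    ∃ h : List G → Ch F G →ₗ[F] Ch F G, (∀ l, l ≠ [] → ∀ x, bd (h l x) + h l (bd x) = x) ∧
      (∀ g l, l ≠ [] → ∀ x, lmap (g * ·) (h l x) = h (l.map (g * ·)) (lmap (g * ·) x)) ∧
      ∀ l, 3 ≤ l.length → retL h l ≠ 0 → Three id {x | x ∈ l} := by
  obtain ⟨π, p1, p2, p3⟩ := exists_pair hG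
  let h : List G → Ch F G →ₗ[F] Ch F G
    | [a, b] => π a b
    | l => hdc F l
  refine ⟨h, fun l hl x => ?_, fun g l hl x => ?_, fun l hl => ?_⟩
  · match l, hl with
    | [a], hl => exact hdc_spec _ hl x
    | [a, b], _ => exact p2 a b x
    | a :: b :: c :: l, hl => exact hdc_spec _ hl x
  · match l, hl with
    | [a], hl => exact hdc_nat _ _ hl x
    | [a, b], _ => exact p3 g a b x
    | a :: b :: c :: l, hl => exact hdc_nat _ _ hl x
  induction hn : l.length using Nat.strong_induction_on generalizing l with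
  | _ n ih =>
    intro h0
    by_contra h3
    refine h0 ?_
    rcases hl.eq_or_lt with e | e
    · obtain ⟨x, y, z, rfl⟩ := List.length_eq_three.1 e.symm
      by_cases e1 : x = y
      · exact e1 ▸ retL_deg h [] x [z]
      by_cases e2 : y = z
      · exact e2 ▸ retL_deg h [x] y []
      by_cases e3 : x = z
      swap
      · exact (h3 ⟨x, by simp, y, by simp, z, by simp, e1, e3, e2⟩).elim
      subst e3
      have h1 : retL h [y, x] + retL h [x, y] = 0 := by
        rw [retL_ne _ (by simp), retL_ne (l := [x, y]) _ (by simp),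
          show h [y, x] = h [x, y] from p1 y x, ← map_add]
        simp [bdL]
      have h2 := retL_deg h [] x []
      rw [retL_ne _ (by simp)]
      simp only [bdL, map_sub, map_zero, sub_zero, cone_single, linearCombination_single, one_smul]
      rw [show retL h [x, x] = 0 from h2, ← map_sub, ← map_sub, zero_sub, sub_neg_eq_add, h1,
        map_zero]
    · rw [retL_ne _ (by rintro rfl; simp at e), map_eq (G := 0) (fun m hm => ?_) (bdL_mem l),
        LinearMap.zero_apply, map_zero]
      rw [linearCombination_single, one_smul, LinearMap.zero_apply]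
      by_contra h4
      obtain ⟨a, ha, b, hb, c, hc, h5⟩ := ih m.length (by have := hm.1; omega) m
        (by have := hm.1; omega) rfl h4
      exact h3 ⟨a, hm.2 a ha, b, hm.2 b hb, c, hm.2 c hc, h5⟩

end Pool.Agent.Lib.MP_99fcc5_gt.Gen
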