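import Pool.Agent.Lib.MP_99fcc5_gt.GL
import Pool.Agent.Lib.MP_99fcc5_gt.Gen.F0

/-! The two-sided cocycle on a free product, over an arbitrary field. -/

namespace Pool.Agent.Lib.MP_99fcc5_gt.Gen.Fld

open Pool.Agent.Shared.Sing Tree62

variable {G F : Type} [Field F]

theorem three_of_map {T : Type} {f : T → G} {L : Set T} {m : List T} (hL : ∀ x ∈ m, x ∈ L)
    (h : Three id {x | x ∈ m.map f}) : Three f L := by
  obtain ⟨a, ha, b, hb, c, hc, h⟩ := h
  obtain ⟨a', ha', rfl⟩ := List.mem_map.1 ha
  obtain ⟨b', hb', rfl⟩ := List.mem_map.1 hb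
  obtain ⟨c', hc', rfl⟩ := List.mem_map.1 hc
  exact ⟨a', hL a' ha', b', hL b' hb', c', hL c' hc', h⟩

theorem lc_finsum' {ι β : Type} (f : ι → β → F) (c : β →₀ F)
    (h : ∀ b ∈ c.support, (Function.support fun v => f v b).Finite) :
    lc (R := F) (fun b => ∑ᶠ v, f v b) c = ∑ᶠ v, lc (R := F) (f v) c := by
  simp only [Finsupp.linearCombination_apply, Finsupp.sum, smul_eq_mul, mul_finsum]
  exact sum_finsum_comm _ _ fun b hb => (h b hb).subset fun v hv => right_ne_zero_of_mul hv

theorem lc_map_bd' {T : Type} (α : List G → F) (h2 : ∀ l : List G, lc (R := F) α (bdL F l) = 0)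
    (f : T → G) (l : List T) : lc (R := F) (fun m => α (m.map f)) (bdL F l) = 0 := by
  rw [← lc_lmap, lmap_bdL]
  exact h2 _

theorem cup_coc' {T : Type} (k : ℕ) (φ ψ : List T → F)
    (hφ : ∀ l : List T, lc (R := F) φ (bdL F l) = 0)
    (hψ : ∀ l : List T, lc (R := F) ψ (bdL F l) = 0) (l : List T) (hl : k + 2 ≤ l.length) :
    lc (R := F) (fun m => φ (m.take (k + 1)) * ψ (m.drop k)) (bdL F l) = 0 := by
  have e : ∀ χ : List T → F, (∀ l : List T, lc (R := F) χ (bdL F l) = 0) →
      lc (R := F) χ ∘ₗ bd = 0 := fun χ h => LinearMap.ext fun c =>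
    map_eq (F := lc (R := F) χ ∘ₗ bd) (G := 0) (fun l _ => by simp [h]) (mem_top c)
  have h1 := congrArg (lc (R := F) ψ) (bd_capL k (lc (R := F) φ) l (by omega))
  have h2 : capL (k + 1) (0 : Ch F T →ₗ[F] F) l = 0 := by simp [capL]
  rw [← LinearMap.comp_apply, e ψ hψ, e φ hφ, h2, sub_zero, map_smul, LinearMap.zero_apply,
    eq_comm, smul_eq_mul, mul_eq_zero, or_iff_right (pow_ne_zero _ (neg_ne_zero.2 one_ne_zero))] at h1
  rw [← h1]
  refine map_eq (G := lc (R := F) ψ ∘ₗ lc (capL k (lc (R := F) φ))) (fun m hm => ?_) (bdL_mem l)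
  have : k < m.length := by have := hm.1; omega
  simp [capL, this]

variable [Group G]

/-- The cocycle attached to the vertices of type `i`. -/
noncomputable def aa' (α : List G → F) (i : Bool) (l : List (FP G)) : F :=
  ∑ᶠ v : Vx G i, α (l.map fun x => hd i (v.out⁻¹ * x))

theorem aa_fin' {α : List G → F}
    (h3 : ∀ l : List G, 3 ≤ l.length → α l ≠ 0 → Three id {x | x ∈ l}) (i : Bool)
    {l : List (FP G)} (hl : 3 ≤ l.length) :
    (Function.support fun v : Vx G i => α (l.map fun x => hd i (v.out⁻¹ * x))).Finite :=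
  (three_finite i (List.finite_toSet l) id).subset fun _ hv =>
    three_of_map (fun _ hx => hx) (h3 _ (by simpa using hl) hv)

/-- The two-sided cocycle. -/
noncomputable def Ph' (k : ℕ) (α β : List G → F) (l : List (TT G)) : F :=
  ∑ᶠ p : Vx G false × Vx G true, α ((l.take (k + 1)).map (F1 p.1.out p.2.out)) *
    β ((l.drop k).map (F2 p.1.out p.2.out))

theorem group_lemma' (α : Bool → List G → F) (d : Bool → ℕ) (hd2 : ∀ b, 2 ≤ d b)
    (h1 : ∀ b (g : G) (l : List G), α b (l.map (g * ·)) = α b l)
    (h2 : ∀ b (l : List G), lc (R := F) (α b) (bdL F l) = 0)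
    (h3 : ∀ b (l : List G), 3 ≤ l.length → α b l ≠ 0 → Three id {x | x ∈ l}) :
    ∃ (P : Type) (_ : Group P) (ι : Bool → G →* P) (a : Bool → List P → F)
      (Φ : List ((P × P) ⊕ P) → F),
      (∀ i j (l : List G), 3 ≤ l.length → a i (l.map (ι j)) = if i = j then α i l else 0) ∧
      (∀ (x : P × P) (l : List ((P × P) ⊕ P)),
        Φ (l.map (Sum.map (x * ·) fun d => x.1 * d * x.2⁻¹)) = Φ l) ∧
      (∀ l : List ((P × P) ⊕ P), l.length = d false + d true + 2 →
        lc (R := F) Φ (bdL F l) = 0) ∧
      ∀ l : List (P × P), l.length = d false + d true + 1 → Φ (l.map Sum.inl) =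
        a false ((l.take (d false + 1)).map Prod.fst) *
          a true ((l.drop (d false)).map Prod.snd) := by
  have d1 := hd2 false
  have d2 := hd2 true
  have h1' : ∀ {T : Type} b (c : G) (f f' : T → G) (l : List T), (∀ t, f' t = c * f t) →
      α b (l.map f') = α b (l.map f) := fun b c f f' l h => by
    rw [← h1 b c (l.map f), List.map_map]
    exact congrArg (α b) (List.map_congr_left fun t _ => h t)
  refine ⟨FP G, inferInstance, io, fun i => aa' (α i) i, Ph' (d false) (α false) (α true),
    fun i j l hl => ?_, fun x l => ?_, fun l hl => ?_, fun l hl => ?_⟩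
  · have hz : ∀ v : Vx G i, ¬ (i = j ∧ v.out⁻¹ ∈ (io i).range) →
        α i ((l.map (io j)).map fun x => hd i (v.out⁻¹ * x)) = 0 := fun v hv => by
      by_contra h
      obtain ⟨a, ha, b, hb, -, -, h, -⟩ := three_of_map (L := Set.univ) (fun _ _ => trivial)
        (List.map_map ▸ h3 _ _ (by simpa using hl) h)
      exact h ((hd_mul_io hv a).trans (hd_mul_io hv b).symm)
    dsimp only
    unfold aa'
    split_ifs with hij
    · subst hij
      rw [finsum_eq_single _ (QuotientGroup.mk 1 : Vx G i) fun v hv => hz v fun h => hv (by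
        rw [← QuotientGroup.out_eq' v]
        exact QuotientGroup.eq.2 (by simpa using h.2))]
      obtain ⟨c, hc⟩ := out_mk i (1 : FP G)
      rw [hc, List.map_map, h1' i c⁻¹ id _ l fun t => by
        rw [Function.comp_apply, hd_rep, inv_one, one_mul, hd_io, id], List.map_id]
    · exact finsum_eq_zero_of_forall_eq_zero fun v => hz v fun h => hij h.1
  · unfold Ph'
    rw [← finsum_comp_equiv (Equiv.prodCongr (MulAction.toPerm x.1 : Equiv.Perm (Vx G false))
      (MulAction.toPerm x.2 : Equiv.Perm (Vx G true)))]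
    refine finsum_congr fun p => ?_
    obtain ⟨c, hc⟩ := smul_out false x.1 p.1
    obtain ⟨c', hc'⟩ := smul_out true x.2 p.2
    simp only [Equiv.prodCongr_apply, Prod.map_fst, Prod.map_snd, MulAction.toPerm_apply, hc, hc',
      ← List.map_take, ← List.map_drop, List.map_map]
    congr 1
    · exact h1' _ c⁻¹ _ _ _ fun t => by rw [Function.comp_apply, F1_rep, F1_act]
    · exact h1' _ c'⁻¹ _ _ _ fun t => by rw [Function.comp_apply, F2_rep, F2_act]
  · unfold Ph'
    rw [lc_finsum']
    · exact finsum_eq_zero_of_forall_eq_zero fun p =>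
        cup_coc' _ (fun m => α false (m.map (F1 p.1.out p.2.out)))
          (fun m => α true (m.map (F2 p.1.out p.2.out)))
          (lc_map_bd' _ (h2 _) _) (lc_map_bd' _ (h2 _) _) l (by omega)
    · intro m hm
      obtain ⟨hm1, hm2⟩ := (Finsupp.mem_supported F _).1 (bdL_mem (R := F) l) hm
      refine (good_finite (List.finite_toSet l)).subset fun p hp => ⟨?_, ?_⟩
      · exact three_of_map (m := m.take (d false + 1))
          (fun x hx => hm2 x (List.mem_of_mem_take hx)) (h3 _ _
            (by rw [List.length_map, List.length_take]; omega) (left_ne_zero_of_mul hp))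
      · exact three_of_map (m := m.drop (d false))
          (fun x hx => hm2 x (List.mem_of_mem_drop hx)) (h3 _ _
            (by rw [List.length_map, List.length_drop]; omega) (right_ne_zero_of_mul hp))
  · have f1 := aa_fin' (h3 false) false (l := (l.take (d false + 1)).map Prod.fst)
      (by rw [List.length_map, List.length_take]; omega)
    have f2 := aa_fin' (h3 true) true (l := (l.drop (d false)).map Prod.snd)
      (by rw [List.length_map, List.length_drop]; omega)
    have e : Ph' (d false) (α false) (α true) (l.map Sum.inl) = ∑ᶠ p : Vx G false × Vx G true,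
        α false (((l.take (d false + 1)).map Prod.fst).map fun x => hd false (p.1.out⁻¹ * x)) *
          α true (((l.drop (d false)).map Prod.snd).map fun x => hd true (p.2.out⁻¹ * x)) := by
      unfold Ph'
      refine finsum_congr fun p => ?_
      rw [← List.map_take, ← List.map_drop, List.map_map, List.map_map, List.map_map,
        List.map_map]
      rfl
    rw [e, finsum_curry _ ((f1.prod f2).subset fun p hp =>
      ⟨left_ne_zero_of_mul hp, right_ne_zero_of_mul hp⟩)]
    dsimp only
    unfold aa'
    rw [finsum_mul]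
    exact finsum_congr fun v => by rw [mul_finsum]

end Pool.Agent.Lib.MP_99fcc5_gt.Gen.Fld
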