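import Pool.Agent.Lib.MP_99fcc5_gt.W4
import Pool.Agent.Lib.MP_99fcc5_gt.Gen.F1

/-! The product of two pulled back classes of degrees `k` and `l` has weight `k + l`, over an
arbitrary field. -/

set_option linter.unusedSectionVars false

namespace Pool.Agent.Lib.MP_99fcc5_gt.Gen.Fld

open Finsupp Set Topology unitInterval Pool.Agent.Shared.Sing Pool.Agent.Lib.MP_c77dc5_gt

variable {F : Type} [Field F]

/-- The group cocycle of a cohomology class of the base of a contractible covering. -/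
theorem hopf' {E B : Type*} {G : Type} [TopologicalSpace E] [TopologicalSpace B] [Nonempty B]
    [ContractibleSpace E] [Group G] [MulAction G E] [ContinuousConstSMul G E] {p : E → B}
    (cv : Cov G p) (hG : (2 : F) ≠ 0 ∨ ∀ g : G, g * g = 1 → g = 1) {d : ℕ}
    {φ : C F B →ₗ[F] F} (hφ : Shared.Sing.Coc univ d φ) :
    ∃ α : List G → F, (∀ g l, α (l.map (g * ·)) = α l) ∧ (∀ l, lc α (bdL F l) = 0) ∧
      (∀ l, 3 ≤ l.length → α l ≠ 0 → Tree62.Three id {x | x ∈ l}) ∧
      ∀ (X ι : Type _) [TopologicalSpace X] [Nonempty X]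
      (g : X → B) (μ : X → E) (Ω : ι → Set X) (s : ι → X → E), Continuous g → (∀ x, p (μ x) = g x) →
      (∀ i x, p (s i x) = g x) → (∀ i, ContinuousOn (s i) (Ω i)) → ∃ a : C F X →ₗ[F] F,
        Shared.Sing.Coc univ d a ∧ Dies univ d (φ ∘ₗ map g - a) ∧ ∀ i, ∀ c ∈ In F (Ω i) (d + 1),
          a c = lc α (lab (fun x => quo G (μ x) (s i x)) c) := by
  obtain ⟨H, y, k⟩ := exists_ctr E
  obtain ⟨r, r1, r2, r3⟩ := exists_ret hG
  have : Nonempty E := ⟨y⟩
  have hp := cv.loc.continuous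
  obtain ⟨h, hh⟩ := exists_contr (R := F) (A := univ) k.cont.continuousOn (mapsTo_univ _ _)
    trivial (fun e _ => k.zero e) fun e _ => k.one e
  replace hh : ∀ c, D (h c) + h (D c) = c :=
    ext_univ (F := D ∘ₗ h + h ∘ₗ D) (G := LinearMap.id) fun n c hc => (hh n c hc).2
  let h' (g : G) : C F E →ₗ[F] C F E := ρ g ∘ₗ h ∘ₗ ρ g⁻¹
  have h1 : ∀ g x, D (h' g x) + h' g (D x) = x := fun g x => by
    simp only [h', LinearMap.comp_apply, ← ρ_D]
    rw [← map_add, ρ_D, hh, ρ_mul, mul_inv_cancel, ρ_one]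
  have h2 : ∀ g a x, ρ g (h' a x) = h' (g * a) (ρ g x) := fun g a x => by simp [h', ρ_mul]
  let e : Sx E := mk 0 fun _ => y
  have he : ∀ f : V → E, mk 0 f = e := fun f => mk_congr (by simp [Δ_zero])
  let K : List G → C F E := zig (single e 1) (fun L => h' (L.headD 1)) 0 1
  have K1 : ∀ a, D (lc K a) = lc K (bd a) := fun a => map_eq (F := D ∘ₗ lc K) (G := lc K ∘ₗ bd)
    (fun l _ => by
      simpa [K] using zig_spec (b := single e 1) (h := fun L => h' (L.headD 1)) (A := 0)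
        (s := 1) D (fun l _ => h1 _) (by simp) (D_zero (single_In e)) l) (mem_top a)
  have K2 : ∀ g a, ρ g (lc K a) = lc K (lmap (g * ·) a) := fun g a => map_eq (F := ρ g ∘ₗ lc K)
    (G := lc K ∘ₗ lmap _) (fun l _ => by
      simpa [K] using zig_nat (b := single e 1) (b' := single e 1) (h := fun L => h' (L.headD 1))
        (h' := fun L => h' (L.headD 1)) (A := 0) (A' := 0) (s := 1) (g * ·) (ρ g) (fun l hl x => by
          obtain ⟨a, l, rfl⟩ := List.exists_cons_of_ne_nil hl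
          exact h2 g a x) (by simp) (by simp [ρ, he, e]) l) (mem_top a)
  let J : Ch F G →ₗ[F] C F E := lc K ∘ₗ lc (retL r)
  have J1 : ∀ a, D (J a) = J (bd a) := fun a => by simp [J, K1, bd_lc_retL r1]
  have J2 : ∀ g a, ρ g (J a) = J (lmap (g * ·) a) := fun g a => by
    simp only [J, LinearMap.comp_apply, K2, lc_lmap, ← lmap_retL (r2 g), ← map_lc]
  obtain ⟨u, hu⟩ := exists_trunc (φ ∘ₗ map p) (d + 1)
  have u1 : ∀ c, u (D c) = 0 := ext_univ (F := u ∘ₗ D) (G := 0) fun n c hc =>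
    (hu _ _ (D_In' hc)).trans (ite_eq_right_iff.2 fun h => hφ.comp_map hp.continuousOn
      (mapsTo_univ _ _) c (by rwa [show d + 2 = n by omega]))
  have u2 : ∀ (g : G) c, u (ρ g c) = u c := fun g => ext_univ (F := u ∘ₗ ρ g) fun n c hc => by
    rw [LinearMap.comp_apply, hu n c hc, ρ, hu n _ (map_In (continuous_const_smul g).continuousOn
      (mapsTo_univ _ _) hc), LinearMap.comp_apply, LinearMap.comp_apply, map_map
      (continuous_const_smul g).continuousOn hc, map_congr (g := p ∘ fun x => g • x) (g' := p)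
      (fun e _ => cv.inv g e) hc]
  have e0 : ∀ a, lc (fun l => u (J (single l 1))) a = u (J a) := fun a =>
    map_eq (G := u ∘ₗ J) (fun l _ => by simp) (mem_top a)
  refine ⟨fun l => u (J (single l 1)), fun g l => by simp only [← lmap_single, ← J2, u2],
    fun l => by rw [e0, ← bd_single, ← J1, u1], fun l hl h => r3 l hl fun h' => h (by simp [J, h']),
    fun X ι _ _ g μ Ω s hg l1 l2 hs => ?_⟩
  let κ (i : ι) (x : X) := quo G (μ x) (s i x)
  obtain ⟨Θ, hΘ⟩ := glue_co Ω (fun i => u ∘ₗ gz (fun t => h' (κ i (v0 t)))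
    (map (s i) - J ∘ₗ lab (κ i))) fun i k S hS h0 n c hc => by
      obtain ⟨a, ha⟩ := exists_cst (S := S) (f := κ i) (g := κ k) fun x hx y hy => by
        simp only [κ, cv.quo_div ((l1 _).trans (l2 _ _).symm) ((l1 _).trans (l2 _ _).symm)]
        exact cv.quo_cst h0 ((hs i).mono fun _ h => (hS h).1) ((hs k).mono fun _ h => (hS h).2)
          (fun x => (l2 _ _).trans (l2 _ _).symm) hx hy
      rw [LinearMap.comp_apply, ← u2 a]
      refine congrArg u (gz_nat (ρ a) (fun t t0 ht x => by rw [h2, ← ha (v0 t) (ht (e0_mem t0))])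
        (fun n c hc => ?_) hc)
      simp only [LinearMap.sub_apply, LinearMap.comp_apply, map_sub]
      rw [J2, ← lab_congr (a * ·) ha hc, ρ, map_map ((hs i).mono fun _ h => (hS h).1) hc,
        map_congr (g' := s k) (fun x hx => ?_) hc]
      rw [← cv.quo_smul ((l1 x).trans (l2 k x).symm), Function.comp_apply,
        ← cv.quo_smul ((l1 x).trans (l2 i x).symm), ← mul_smul]
      exact congrArg (· • μ x) (ha x hx).symm
  refine ⟨φ ∘ₗ map g - Θ ∘ₗ D, (hφ.comp_map hg.continuousOn (mapsTo_univ _ _)).sub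
    fun c _ => by simp, ⟨Θ, fun c _ => by simp⟩, fun i c hc => ?_⟩
  have h3 := congrArg u (gz_spec (h := fun t => h' (κ i (v0 t))) (A := map (s i) - J ∘ₗ lab (κ i))
    D (fun t => h1 _) (fun n c hc => by simp [J1, lab_D, map_D (hs i) hc]) (fun c hc => by
      rw [LinearMap.sub_apply, LinearMap.comp_apply, lab_zero _ hc, sub_eq_zero]
      exact map_eq (G := J ∘ₗ eps.smulRight (single [] 1)) (fun t ht => by
        simp [ht.1, he, J, retL, zig_nil, K]) hc) hc)
  rw [map_add, u1, zero_add, LinearMap.sub_apply, map_sub, hu (d + 1) _ (map_In (hs i) (mapsTo_univ _ _) hc),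
    if_pos rfl, LinearMap.comp_apply, map_map (hs i) hc, map_congr (g := p ∘ s i) (g' := g)
    (fun x _ => l2 i x) hc] at h3
  rw [LinearMap.sub_apply, LinearMap.comp_apply, LinearMap.comp_apply, hΘ i _ _ (D_In hc), e0,
    LinearMap.comp_apply, h3, sub_sub_cancel]
  rfl

lemma exists_index' {r : ℕ} [NeZero r] {N : Type*} [TopologicalSpace N] [T2Space N] [CompactSpace N]
    {U : Fin r → Set N}
    (hU : ∀ i, IsOpen (U i)) {K : Set N} (hK : IsCompact K) (h : K ⊆ ⋃ i, U i) :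
    ∃ (W : Finset (Option (Fin r)) → Set N) (m : N → Fin r), (∀ S, IsOpen (W S)) ∧
      (∀ x, ∃ S, x ∈ W S) ∧ ∀ S, ∀ x ∈ W S, x ∈ K → W S ⊆ U (m x) := by
  classical
  obtain ⟨W, w1, w2, w3, w4⟩ := exists_strata (O := fun a : Option (Fin r) => a.elim Kᶜ U)
    (by rintro (_ | i); exacts [hK.isClosed.isOpen_compl, hU i]) fun x => (em (x ∈ K)).elim
      (fun hx => (mem_iUnion.1 (h hx)).elim fun i hi => ⟨some i, hi⟩) fun hx => ⟨none, hx⟩
  have key : ∀ x, ∃ j, ∀ S, S.Nonempty → x ∈ W S → x ∈ K → W S ⊆ U j := fun x => by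
    obtain ⟨S, ⟨⟨a, ha⟩, h1⟩, h2⟩ := exists_minimalFor_of_wellFoundedLT
      (fun S => S.Nonempty ∧ x ∈ W S) id (w3 x)
    refine ⟨a.getD 0, fun S' h3 h4 h5 => ?_⟩
    obtain _ | a := a
    · exact (w2 S _ ha h1 h5).elim
    exact w2 S' _ ((w4 S S' x h1 h4).elim id (h2 ⟨h3, h4⟩) ha)
  choose m hm using key
  exact ⟨fun S => {x | S.Nonempty ∧ x ∈ W S}, m, fun S => by
    by_cases h : S.Nonempty <;> simp [h, w1], w3, fun S x hx h y hy => hm x S hx.1 hx.2 h hy.2⟩

lemma dies_cap {Y : Type*} [TopologicalSpace Y] [Nonempty Y] {A : Set Y} {p k : ℕ} (hp : 1 ≤ p)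
    {φ : C F Y →ₗ[F] F} {c : C F Y} (h : Dies A p φ) (hc : c ∈ Z F A ∅ (p + k)) :
    cap p φ c ∈ Shared.Sing.B F A ∅ k := by
  obtain ⟨p, rfl⟩ := Nat.exists_eq_add_of_le' hp
  exact h.cap_B hc

lemma dies_apply {Y : Type*} [TopologicalSpace Y] [Nonempty Y] {A : Set Y} {p : ℕ} (hp : 1 ≤ p)
    {φ : C F Y →ₗ[F] F} {c : C F Y} (h : Dies A p φ) (hc : c ∈ Z F A ∅ p) : φ c = 0 := by
  obtain ⟨p, rfl⟩ := Nat.exists_eq_add_of_le' hp
  exact h.apply_Z hc

lemma D_eq_zero {Y : Type*} [TopologicalSpace Y] [Nonempty Y] {A : Set Y} {p : ℕ} (hp : 1 ≤ p)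
    {c : C F Y} (hc : c ∈ Z F A ∅ p) : D c = 0 := by
  obtain ⟨p, rfl⟩ := Nat.exists_eq_add_of_le' hp
  exact Z_D_eq hc

theorem weight {B X : Type*} {E G : Type} [TopologicalSpace E] [TopologicalSpace B]
    [TopologicalSpace X] [Nonempty B] [Nonempty X] [T2Space X] [CompactSpace X]
    [ContractibleSpace E] [Group G] [MulAction G E] [ContinuousConstSMul G E] {p : E → B}
    (cv : Cov G p) (hG : (2 : F) ≠ 0 ∨ ∀ g : G, g * g = 1 → g = 1)
    {V₁ V₂ : Set X} (v1 : IsOpen V₁) (v2 : IsOpen V₂) (hV : ∀ x, x ∈ V₁ ∨ x ∈ V₂)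
    {g : Bool → X → B} (hg : ∀ b, Continuous (g b)) {μ : Bool → X → E}
    (l : ∀ b x, p (μ b x) = g b x) (m1 : ContinuousOn (μ false) V₂)
    (m2 : ContinuousOn (μ true) V₁) {d : Bool → ℕ} (hd : ∀ b, 2 ≤ d b)
    {φ : Bool → C F B →ₗ[F] F} (hφ : ∀ b, Shared.Sing.Coc univ (d b) (φ b))
    {U : Fin (d false + d true) → Set (X × X)} (hU : ∀ i, IsOpen (U i))
    (hσ : ∀ i, ∃ s : C(U i, C(I, X)), ∀ x, s x 0 = x.1.1 ∧ s x 1 = x.1.2)
    {z : C F (X × X)} (hz : z ∈ Z F (⋃ i, U i) ∅ (d false + d true)) :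
    cup (d false) (φ false ∘ₗ map fun q : X × X => g false q.1)
      (φ true ∘ₗ map fun q : X × X => g true q.2) z = 0 := by
  classical
  have d1 := hd false
  have d2 := hd true
  have : NeZero (d false + d true) := ⟨by omega⟩
  choose α α1 α2 α3 α4 using fun b => hopf' cv hG (hφ b)
  obtain ⟨P, _, ι, a, Φ, a3, a4, a5, a6⟩ := group_lemma' α d hd α1 α2 α3
  obtain ⟨Ω, s, o1, o2, o3, o4, o5, o6⟩ := exists_cech cv ι v1 v2 hV hg l m1 m2
  let κ (i : X × Bool) (x : X) : P := ι i.2 (quo _ (μ i.2 x) (s i.2 i x))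
  choose x x1 x2 x3 using fun b => α4 b X _ (g b) (μ b) Ω (s b) (hg b) (l b) (o3 b) (o4 b)
  have x4 : ∀ b i, ∀ c ∈ In F (Ω i) (d b + 1), x b c = lc (a b) (lab (κ i) c) := fun b i c hc =>
    (x3 b i c hc).trans (map_eq (F := lc (α b) ∘ₗ lab _) (G := lc (a b) ∘ₗ lab _) (fun t ht => by
      simp only [LinearMap.comp_apply, lab_single, linearCombination_single, one_smul]
      rw [show κ i ∘ t.f = ι i.2 ∘ (fun x => quo _ (μ i.2 x) (s i.2 i x)) ∘ t.f from rfl,
        ← List.map_map (g := ι i.2), a3 _ _ _ (by have := hd b; simp [ht.1]; omega)]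
      split_ifs with h
      · rw [h]
      · by_contra h'
        obtain ⟨u, -, v, -, -, -, h2, -⟩ := three_of_map (L := univ) (fun _ _ => trivial)
          (α3 _ _ (by have := hd b; simp [ht.1]; omega) h')
        simp [o5 b i h, cv.quo_eq (one_smul _ _)] at h2) hc)
  have pr : ∀ b (r : X × X → X), Continuous r → Shared.Sing.Coc univ (d b) (x b ∘ₗ map r) ∧
      Dies univ (d b) (φ b ∘ₗ map (g b ∘ r) - x b ∘ₗ map r) := fun b r hr => by
    obtain ⟨θ, h⟩ := x2 b
    refine ⟨(x1 b).comp_map hr.continuousOn (mapsTo_univ _ _), θ ∘ₗ map r, fun c hc => ?_⟩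
    simpa [map_map hr.continuousOn hc, map_D hr.continuousOn hc] using
      h _ (map_In hr.continuousOn (mapsTo_univ _ _) hc)
  obtain ⟨y1, y2⟩ := pr false _ continuous_fst
  obtain ⟨y3, y4⟩ := pr true _ continuous_snd
  have hz' : z ∈ Z F univ ∅ (d false + d true) := Z_mono (subset_univ _) le_rfl hz
  obtain ⟨T, hT⟩ := exists_transport Ω o1 o2 κ o6
  choose sg hσ using hσ
  let γ (i : Fin (d false + d true)) (y : X × X) : C(I, X) := if h : y ∈ U i then sg i ⟨y, h⟩ else .const _ y.1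
  have g0 : ∀ i, ∀ y ∈ U i, γ i y 0 = y.1 ∧ γ i y 1 = y.2 := fun i y h => by
    simpa [γ, h] using hσ i ⟨y, h⟩
  have g1 : ∀ i, ContinuousOn (γ i) (U i) := fun i => continuousOn_iff_continuous_domRestrict.2
    ((sg i).continuous.congr fun x => by simp [γ])
  obtain ⟨K, k1, k2, k3⟩ := exists_compact hz.1
  obtain ⟨W, m, w1, w2, w3⟩ := exists_index' hU k1 k2
  let O (i : (X × Bool) × X × Bool) : Set (X × X) := Ω i.1 ×ˢ Ω i.2
  let L₀ (i : (X × Bool) × X × Bool) (y : X × X) : (P × P) ⊕ P := .inl (κ i.1 y.1, κ i.2 y.2)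
  let L₁ (i : (X × Bool) × X × Bool) (y : X × X) : Fin (d false + d true) × P :=
    (m y, κ i.1 y.1 * (T (γ (m y) y))⁻¹ * (κ i.2 y.2)⁻¹)
  let Λ : Ch F (Fin (d false + d true) × P) →ₗ[F] Ch F ((P × P) ⊕ P) :=
    lmap (fun x => Sum.inr x.2) ∘ₗ lc (retL (mc F fun x => (x.1 : ℕ)))
  let Ψ : Ch F ((P × P) ⊕ P) →ₗ[F] F := lc fun l => if l.length = d false + d true + 1 then Φ l else 0
  have Ψ1 : ∀ u, Ψ (bd u) = 0 := fun u => map_eq (F := Ψ ∘ₗ bd) (G := 0) (fun l _ => by
    rw [LinearMap.comp_apply, bd_single]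
    by_cases h : l.length = d false + d true + 2
    · exact (map_eq (fun l' hl' => by simp [Ψ, show l'.length = d false + d true + 1 by have := hl'.1; omega])
        (bdL_mem l)).trans (a5 l h)
    · exact map_eq (G := 0) (fun l' hl' => by
        simp [Ψ, show l'.length ≠ d false + d true + 1 by have := hl'.1; omega]) (bdL_mem l)) (mem_top u)
  have Ψ2 : ∀ (q : P × P) u, Ψ (lmap (Sum.map (q * ·) fun d => q.1 * d * q.2⁻¹) u) = Ψ u :=
    fun q u => map_eq (F := Ψ ∘ₗ lmap _) (fun l _ => by simp [Ψ, a4]) (mem_top u)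
  obtain ⟨Θ, hΘ⟩ := glue_co O (fun i => Ψ ∘ₗ gz (fun t => cone (L₀ i (v0 t)))
    (Λ ∘ₗ lab (L₁ i) - lab (L₀ i))) fun i k S hS h0 n u hu => by
      obtain ⟨q, hq⟩ := exists_cst (S := S) (f := fun y => (κ i.1 y.1, κ i.2 y.2))
        (g := fun y => (κ k.1 y.1, κ k.2 y.2)) fun y hy y' hy' => cst_of_ev
          (f := fun y => (κ k.1 y.1, κ k.2 y.2) * (κ i.1 y.1, κ i.2 y.2)⁻¹) h0 (fun y hy => by
            filter_upwards [continuousAt_fst.eventually (o6 _ _ _ (hS hy).1.1 (hS hy).2.1),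
              continuousAt_snd.eventually (o6 _ _ _ (hS hy).1.2 (hS hy).2.2)] with y' h h'
              using Prod.ext h h') hy hy'
      have q0 : ∀ y ∈ S, L₀ k y = Sum.map (q * ·) (fun d => q.1 * d * q.2⁻¹) (L₀ i y) :=
        fun y hy => congrArg Sum.inl (hq y hy)
      have q1 : ∀ y ∈ S, L₁ k y = Prod.map id (fun d => q.1 * d * q.2⁻¹) (L₁ i y) :=
        fun y hy => by
          simp [L₁, show κ k.1 y.1 = _ from congrArg Prod.fst (hq y hy),
            show κ k.2 y.2 = _ from congrArg Prod.snd (hq y hy), mul_assoc]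
      rw [LinearMap.comp_apply, ← Ψ2 q]
      refine congrArg Ψ (gz_nat _ (fun t t0 ht u => by
        rw [lmap_cone, ← q0 (v0 t) (ht (e0_mem t0))]) (fun n u hu => ?_) hu)
      simp only [LinearMap.sub_apply, LinearMap.comp_apply, map_sub]
      rw [lab_congr _ q0 hu, lab_congr _ q1 hu]
      simp only [Λ, LinearMap.comp_apply, lc_lmap, ← lmap_retL (mc_nat (R := F)
        (w := fun x : Fin (d false + d true) × P => (x.1 : ℕ))
        (w' := fun x : Fin (d false + d true) × P => (x.1 : ℕ))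
        (f := Prod.map id fun d => q.1 * d * q.2⁻¹) fun _ => rfl), ← map_lc, lmap_lmap]
      rfl
  obtain ⟨r, hr⟩ := (Shared.Sing.small
    (U := fun i : ((X × Bool) × X × Bool) × Finset (Option (Fin (d false + d true))) => O i.1 ∩ W i.2)
    (fun i => ((o1 _).prod (o1 _)).inter (w1 _)) (In_mono (fun y _ => by
      obtain ⟨⟨i, hi⟩, ⟨k, hk⟩, S, hS⟩ := And.intro (o2 y.1) (And.intro (o2 y.2) (w2 y))
      exact mem_iUnion.2 ⟨((i, k), S), ⟨hi, hk⟩, hS⟩) _ hz'.1)).exists
  have key : cup (d false) (x false ∘ₗ map Prod.fst) (x true ∘ₗ map Prod.snd) ((sd ^ r) z) =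
      -Θ (D ((sd ^ r) z)) := by
    simp only [In, ← supported_iUnion] at hr
    refine map_eq (G := -Θ ∘ₗ D) (S := _ ∩ _) (fun t ht => ?_)
      fun t ht => ⟨hr ht, sd_In k3 r ht⟩
    obtain ⟨⟨i, S⟩, t1, t2⟩ := mem_iUnion.1 ht.1
    have t3 : single t (1 : F) ∈ In F (O i) (d false + d true + 1) := single_mem ⟨t1, t2.mono_right inter_subset_left⟩
    have h1 := congrArg Ψ (gz_spec (h := fun t => cone (L₀ i (v0 t))) (A := Λ ∘ₗ
      lab (L₁ i) - lab (L₀ i)) bd (fun t => bd_cone _) (fun n u _ => by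
        simp [Λ, lab_D, bd_lmap, bd_lc_retL (mc_spec _)])
      (fun u hu => by simp [Λ, lab_zero _ hu, retL, zig_nil]) t3)
    have h2 : Λ (single ((std t.n).map (L₁ i ∘ t.f)) 1) = 0 := by
      rw [LinearMap.comp_apply, linearCombination_single, mc_dup _ (by simp [t1]), smul_zero,
        map_zero]
      simp only [List.forall_mem_map]
      exact fun v hv v' hv' e => Prod.ext e (by
          replace e : m (t.f v) = m (t.f v') := e
          have h4 := fun y (hy : y ∈ t.f '' Δ t.n) => t2.image_subset hy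
          have h5 := fun y hy => w3 S _ (t2 (std_mem v hv)).2 (ht.2.2 (std_mem v hv)) (h4 y hy).2
          have := cst_of_ev (f := fun y => κ i.2 y.2 * T (γ (m (t.f v)) y) * (κ i.1 y.1)⁻¹)
            ((convex_Δ _).isPreconnected.image _ t.cont) (fun y hy => by
              have h6 := (hU _).mem_nhds (h5 y hy)
              filter_upwards [((g1 _).continuousAt h6).eventually (hT _ i.1 i.2
                (by rw [(g0 _ y (h5 y hy)).1]; exact (h4 y hy).1.1)
                (by rw [(g0 _ y (h5 y hy)).2]; exact (h4 y hy).1.2)), h6] with y' h7 h8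
              simpa only [g0 _ y' h8, g0 _ y (h5 y hy)] using h7)
            ⟨v, std_mem v hv, rfl⟩ ⟨v', std_mem v' hv', rfl⟩
          simpa [L₁, ← e, mul_assoc] using congrArg (·⁻¹) this)
    have h3 : ∀ (b) (j : X × Bool) (r : X × X → X), Continuous r → MapsTo r (O i) (Ω j) →
        ∀ u ∈ In F (O i) (d b + 1), (x b ∘ₗ map r) u = (lc (a b) ∘ₗ lab (κ j ∘ r)) u := fun b j r h h' u hu => by
      rw [LinearMap.comp_apply, x4 b j _ (map_In h.continuousOn h' hu), lab_map _ h.continuousOn hu,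
        LinearMap.comp_apply]
    rw [map_add, Ψ1, zero_add, LinearMap.sub_apply, LinearMap.comp_apply, lab_single,
      h2, zero_sub, map_neg, lab_single] at h1
    rw [cup, LinearMap.comp_apply, cap_congr (h3 _ i.1 _ continuous_fst fun _ h => h.1) t3,
      h3 _ i.2 _ continuous_snd (fun _ h => h.2) _ (cap_In' _ t3), ← LinearMap.comp_apply, ← cup,
      cup_lab _ _ _ _ _ (by rw [t1]; omega), LinearMap.neg_apply, LinearMap.comp_apply,
      hΘ i _ _ (D_In t3), LinearMap.comp_apply, h1, neg_neg]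
    have h4 := a6 ((std t.n).map fun v => (κ i.1 (t.f v).1, κ i.2 (t.f v).2)) (by simp [t1])
    simp only [← List.map_take, ← List.map_drop, List.map_map] at h4
    simp only [Ψ, linearCombination_single, one_smul, List.length_map, length_std, t1, if_true]
    rw [t1] at h4
    exact h4.symm
  have e1 := ((hφ true).comp_map ((hg true).comp continuous_snd).continuousOn
    (mapsTo_univ _ _)).apply_B (dies_cap (by omega) y2 hz')
  have e2 := dies_apply (by omega) y4 (cap_Z (k := d true) y1 hz')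
  have e3 := (y1.cup y3).apply_B (sub_sd hz' r)
  rw [map_sub, key, D_sd, D_eq_zero (by omega) hz', map_zero, map_zero, neg_zero, sub_zero] at e3
  rw [cap_sub, map_sub, sub_eq_zero] at e1
  rw [LinearMap.sub_apply, sub_eq_zero] at e2
  exact e1.trans (e2.trans e3)

end Pool.Agent.Lib.MP_99fcc5_gt.Gen.Fld
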