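import Pool.Agent.Lib.MP_99fcc5_gt.Gen.G4
import Pool.Agent.Lib.MP_99fcc5_gt.Gen.F2
import Pool.Agent.Lib.MP_c77dc5_gt.MxInv

/-! Lower bounds for motion planners on a connected sum, over an arbitrary field. -/

set_option linter.unusedSectionVars false

namespace Pool.Agent.Lib.MP_99fcc5_gt.Gen.Fld

open Set Topology unitInterval Pool.Agent.Shared.Sing Pool.Agent.Shared.SingEZ
  Pool.Agent.Lib.MP_c77dc5_gt

variable {F : Type} [Field F]

section weight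

variable {A B₁ B₂ M N X : Type*} {E₁ E₂ : Type} [NormedAddCommGroup A] [NormedSpace ℝ A]
  [ProperSpace A] [TopologicalSpace E₁] [TopologicalSpace E₂] [TopologicalSpace B₁]
  [TopologicalSpace B₂] [TopologicalSpace M] [TopologicalSpace N] [TopologicalSpace X]
  [Nonempty B₁] [Nonempty B₂] [Nonempty X] [T2Space M] [T2Space N] [T2Space X] [CompactSpace X]
  [ContractibleSpace E₁] [ContractibleSpace E₂] [LocallyPathConnectedSpace B₁]
  [LocallyPathConnectedSpace B₂]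

theorem weight₂ {p₁ : E₁ → B₁} {p₂ : E₂ → B₂} (q₁ : IsCoveringMap p₁)
    (s₁ : Function.Surjective p₁) (q₂ : IsCoveringMap p₂) (s₂ : Function.Surjective p₂)
    (hF : (2 : F) ≠ 0 ∨ CompactSpace B₁ ∧ CompactSpace B₂)
    {c₁ : M → B₁} {c₂ : N → B₂} (hc₁ : Continuous c₁) (hc₂ : Continuous c₂) {e₁ : A → M}
    {e₂ : A → N} {f₁ : X → M} {f₂ : X → N} (H : Half e₁ e₂ f₁ f₂) (H' : Half e₂ e₁ f₂ f₁)
    {k l : ℕ} (hk : 2 ≤ k) (hl : 2 ≤ l) {φ₁ : C F B₁ →ₗ[F] F} {φ₂ : C F B₂ →ₗ[F] F}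
    (h₁ : Shared.Sing.Coc univ k φ₁) (h₂ : Shared.Sing.Coc univ l φ₂)
    {U : Fin (k + l) → Set (X × X)} (hU : ∀ i, IsOpen (U i))
    (hσ : ∀ i, ∃ s : C(U i, C(I, X)), ∀ x, s x 0 = x.1.1 ∧ s x 1 = x.1.2)
    {z : C F (X × X)} (hz : z ∈ Z F (⋃ i, U i) ∅ (k + l)) :
    cup k (φ₁ ∘ₗ map fun q : X × X => c₁ (f₁ q.1)) (φ₂ ∘ₗ map fun q : X × X => c₂ (f₂ q.2)) z
      = 0 := by
  have v₁ := cov_deck q₁ s₁
  have v₂ := cov_deck q₂ s₂
  let _ : MulAction (deck p₁ × deck p₂) (E₁ × E₂) :=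
    { smul := fun g e => (g.1 • e.1, g.2 • e.2)
      one_smul := fun e => Prod.ext (one_smul _ e.1) (one_smul _ e.2)
      mul_smul := fun g h e => Prod.ext (mul_smul g.1 h.1 e.1) (mul_smul g.2 h.2 e.2) }
  have : ContinuousConstSMul (deck p₁ × deck p₂) (E₁ × E₂) :=
    ⟨fun g => (continuous_const_smul g.1).prodMap (continuous_const_smul g.2)⟩
  have cv : Cov (deck p₁ × deck p₂) (Prod.map p₁ p₂) := by
    refine ⟨fun e => ?_, s₁.prodMap s₂, fun g e => Prod.ext (v₁.inv g.1 e.1) (v₂.inv g.2 e.2),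
      fun e e' h => ?_, fun g e h => Prod.ext (v₁.free g.1 e.1 (congrArg Prod.fst h))
        (v₂.free g.2 e.2 (congrArg Prod.snd h))⟩
    · obtain ⟨a, a1, a2⟩ := v₁.loc e.1
      obtain ⟨b, b1, b2⟩ := v₂.loc e.2
      exact ⟨a.prod b, ⟨a1, b1⟩, by rw [a2, b2]; rfl⟩
    · obtain ⟨a, ha⟩ := v₁.trans e.1 e'.1 (congrArg Prod.fst h)
      obtain ⟨b, hb⟩ := v₂.trans e.2 e'.2 (congrArg Prod.snd h)
      exact ⟨(a, b), Prod.ext ha hb⟩
  obtain ⟨μ₁, l1, m1⟩ := half_lift q₁ s₁ hc₁ H H'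
  obtain ⟨μ₂, l2, m2⟩ := half_lift q₂ s₂ hc₂ H' H
  obtain ⟨y₁⟩ : Nonempty E₁ := inferInstance
  obtain ⟨y₂⟩ : Nonempty E₂ := inferInstance
  let g : Bool → X → B₁ × B₂ := fun b x => cond b (p₁ y₁, c₂ (f₂ x)) (c₁ (f₁ x), p₂ y₂)
  have hg : ∀ b, Continuous (g b) := by
    rintro (_ | _)
    exacts [(hc₁.comp H.cont).prodMk continuous_const, continuous_const.prodMk (hc₂.comp H'.cont)]
  have key := weight cv (hF.imp_right fun ⟨_, _⟩ _ h => cv.no_inv h)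
    (isOpen_compl_singleton.preimage H.cont) (isOpen_compl_singleton.preimage H'.cont) H.cov hg
    (μ := fun b x => cond b (y₁, μ₂ x) (μ₁ x, y₂))
    (by
      rintro (_ | _) x
      exacts [Prod.ext (l1 x) rfl, Prod.ext rfl (l2 x)])
    (m1.prodMk continuousOn_const) (continuousOn_const.prodMk m2) (d := fun b => cond b l k)
    (by rintro (_ | _); exacts [hk, hl])
    (φ := fun b => cond b (φ₂ ∘ₗ map Prod.snd) (φ₁ ∘ₗ map Prod.fst))
    (by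
      rintro (_ | _)
      exacts [h₁.comp_map continuousOn_fst (mapsTo_univ _ _),
        h₂.comp_map continuousOn_snd (mapsTo_univ _ _)]) hU hσ hz
  rw [← key]
  congr 2
  · exact LinearMap.ext fun y =>
      (congrArg φ₁ (map_map' ((hg false).comp continuous_fst) Prod.fst y)).symm
  · exact LinearMap.ext fun y =>
      (congrArg φ₂ (map_map' ((hg true).comp continuous_snd) Prod.snd y)).symm

end weight

variable {X : Type*} [TopologicalSpace X] [Nonempty X]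

section main

variable {n : ℕ} {M N B₁ B₂ : Type*} {E₁ E₂ : Type} [TopologicalSpace M] [TopologicalSpace N]
  [TopologicalSpace B₁] [TopologicalSpace B₂] [TopologicalSpace E₁] [TopologicalSpace E₂]
  [Nonempty B₁] [Nonempty B₂] [T2Space M] [T2Space N] [CompactSpace M] [CompactSpace N]
  [ConnectedSpace M] [ConnectedSpace N] [ChartedSpace (EuclideanSpace ℝ (Fin n)) M]
  [ChartedSpace (EuclideanSpace ℝ (Fin n)) N] [ContractibleSpace E₁] [ContractibleSpace E₂]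
  [LocallyPathConnectedSpace B₁] [LocallyPathConnectedSpace B₂] {p₁ : E₁ → B₁} {p₂ : E₂ → B₂}
  {c₁ : M → B₁} {c₂ : N → B₂} {e₁ : EuclideanSpace ℝ (Fin n) → M}
  {e₂ : EuclideanSpace ℝ (Fin n) → N} {f₁ : X → M} {f₂ : X → N}

lemma comp_map_eq {Y Y' Y'' Y₀ : Type*} [TopologicalSpace Y] [TopologicalSpace Y']
    [TopologicalSpace Y''] [TopologicalSpace Y₀] [Nonempty Y] [Nonempty Y'] [Nonempty Y'']
    [Nonempty Y₀] (φ : C F Y'' →ₗ[F] F) (c : Y' → Y'') {f : Y → Y'} {r : Y₀ → Y}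
    (hf : Continuous f) (hr : Continuous r) :
    ((φ ∘ₗ map c) ∘ₗ map f) ∘ₗ map r = φ ∘ₗ map fun q => c (f (r q)) :=
  LinearMap.ext fun y => congrArg φ ((congrArg (map c) (map_map' hr f y)).trans
    (map_map' (hf.comp hr) c y))

theorem add_three_le {k l : ℕ} (k2 : 2 ≤ k) (l2 : 2 ≤ l) (kn : k < n) (ln : l < n)
    (q₁ : IsCoveringMap p₁) (s₁ : Function.Surjective p₁) (q₂ : IsCoveringMap p₂)
    (s₂ : Function.Surjective p₂)
    (hF : (2 : F) ≠ 0 ∨ CompactSpace B₁ ∧ CompactSpace B₂) (hc₁ : Continuous c₁) (hc₂ : Continuous c₂)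
    {μ₁ z₁ : C F M} {μ₂ z₂ : C F N} (m1 : μ₁ ∈ Z F univ ∅ n) (m2 : μ₁ ∉ B F univ ∅ n)
    (m3 : μ₂ ∈ Z F univ ∅ n) (m4 : μ₂ ∉ B F univ ∅ n) (z1 : z₁ ∈ Z F univ ∅ k)
    (z2 : map c₁ z₁ ∉ B F univ ∅ k) (z3 : z₂ ∈ Z F univ ∅ l) (z4 : map c₂ z₂ ∉ B F univ ∅ l)
    (H : Half e₁ e₂ f₁ f₂) (H' : Half e₂ e₁ f₂ f₁) {m : ℕ} {U : Fin m → Set (X × X)}
    (hU : ∀ i, IsOpen (U i)) (hc : ⋃ i, U i = univ)
    (hσ : ∀ i, ∃ s : C(U i, C(I, X)), ∀ x, s x 0 = x.1.1 ∧ s x 1 = x.1.2) : k + l + 3 ≤ m := by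
  by_contra hm
  have := H.t2 H'
  have := H.compact H'
  have hM := locEuc_of n M
  have hN := locEuc_of n N
  have hX := H.locEuc (n := n) H'
  have e := Fintype.card_fin n
  obtain ⟨ν, n1, n2⟩ := exists_fund_sum' hX H H' (one_lt_rank (by omega)) (e.symm ▸ m1)
    (fund_of_cycle hM (e.symm ▸ m1) (e.symm ▸ m2)) (e.symm ▸ m3)
    (fund_of_cycle hN (e.symm ▸ m3) (e.symm ▸ m4))
  obtain ⟨τ, hτ⟩ := exists_isThom hX n1 n2
  obtain ⟨φ₁, p1, -, p2⟩ := exists_coc z2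
  obtain ⟨φ₂, p3, -, p4⟩ := exists_coc z4
  have hk : k + (n - k - 1 + 1) = Fintype.card (Fin n) := by omega
  have hl : l + (n - l - 1 + 1) = Fintype.card (Fin n) := by omega
  have α1 := p1.comp_map hc₁.continuousOn (mapsTo_univ _ univ)
  have β1 := p3.comp_map hc₂.continuousOn (mapsTo_univ _ univ)
  obtain ⟨a', a1, a2, O, y, y1, y2, y3⟩ := dual_class hM hX H H' hτ hk hl (by omega) α1 β1 z1
    (by rw [LinearMap.comp_apply, p2]; exact one_ne_zero)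
  obtain ⟨b', b1, b2, -⟩ := dual_class hN hX H' H hτ hl hk (by omega) β1 α1 z3
    (by rw [LinearMap.comp_apply, p4]; exact one_ne_zero)
  obtain ⟨W, w1, w2, w3⟩ := pad (r := k + l + 2) (by omega) hU hc hσ
  refine no_cover hk hl hτ.cyc (α1.comp_map H.cont.continuousOn (mapsTo_univ _ univ))
    (β1.comp_map H'.cont.continuousOn (mapsTo_univ _ univ)) a1 b1 a2 b2 y1 y2 y3
    (isOpen_iUnion fun i : Fin (k + l) => w1 i) (w1 (k + l)) (w1 (k + l + 1))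
    (eq_univ_of_forall fun q => ?_) (fun w hw => ?_) (w2 _) (w2 _)
  · obtain ⟨i, hi, h5⟩ := w3 q
    by_cases h : i < k + l
    · exact Or.inl (mem_iUnion.2 ⟨⟨i, h⟩, h5⟩)
    · rcases (by omega : i = k + l ∨ i = k + l + 1) with rfl | rfl
      exacts [Or.inr (Or.inl h5), Or.inr (Or.inr h5)]
  · rw [comp_map_eq _ _ H.cont continuous_fst, comp_map_eq _ _ H'.cont continuous_snd]
    exact weight₂ q₁ s₁ q₂ s₂ hF hc₁ hc₂ H H' k2 l2 p1 p3 (fun i => w1 i) (fun i => w2 i) hw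

theorem two_mul_lt (hn : 2 ≤ n) (q₁ : IsCoveringMap p₁) (s₁ : Function.Surjective p₁)
    (q₂ : IsCoveringMap p₂) (s₂ : Function.Surjective p₂)
    (hF : (2 : F) ≠ 0 ∨ CompactSpace B₁ ∧ CompactSpace B₂) (hc₁ : Continuous c₁)
    (hc₂ : Continuous c₂) {z₁ : C F M} {z₂ : C F N} (z1 : z₁ ∈ Z F univ ∅ n)
    (z2 : map c₁ z₁ ∉ B F univ ∅ n) (z3 : z₂ ∈ Z F univ ∅ n) (z4 : map c₂ z₂ ∉ B F univ ∅ n)
    (H : Half e₁ e₂ f₁ f₂) (H' : Half e₂ e₁ f₂ f₁) {m : ℕ} {U : Fin m → Set (X × X)}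
    (hU : ∀ i, IsOpen (U i)) (hc : ⋃ i, U i = univ)
    (hσ : ∀ i, ∃ s : C(U i, C(I, X)), ∀ x, s x 0 = x.1.1 ∧ s x 1 = x.1.2) : 2 * n + 1 ≤ m := by
  by_contra hm
  have := H.t2 H'
  have := H.compact H'
  have hM := locEuc_of n M
  have hN := locEuc_of n N
  have hX := H.locEuc (n := n) H'
  have e := Fintype.card_fin n
  have m2 : z₁ ∉ B F univ ∅ n := fun h => z2 (map_B hc₁.continuousOn (empty_subset _)
    (mapsTo_univ _ _) (mapsTo_empty _ _) h)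
  have m4 : z₂ ∉ B F univ ∅ n := fun h => z4 (map_B hc₂.continuousOn (empty_subset _)
    (mapsTo_univ _ _) (mapsTo_empty _ _) h)
  obtain ⟨ν, n1, n2⟩ := exists_fund_sum' hX H H' (one_lt_rank hn) (e.symm ▸ z1)
    (fund_of_cycle hM (e.symm ▸ z1) (e.symm ▸ m2)) (e.symm ▸ z3)
    (fund_of_cycle hN (e.symm ▸ z3) (e.symm ▸ m4))
  obtain ⟨s, s0, hs⟩ := half_degree hM hX H H' (one_lt_rank hn) (e.symm ▸ z1) (e.symm ▸ m2) n1 n2
  obtain ⟨t, t0, ht⟩ := half_degree hN hX H' H (one_lt_rank hn) (e.symm ▸ z3) (e.symm ▸ m4) n1 n2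
  rw [e] at n1 hs ht
  obtain ⟨φ₁, p1, -, p2⟩ := exists_coc z2
  obtain ⟨φ₂, p3, -, p4⟩ := exists_coc z4
  have α1 := p1.comp_map hc₁.continuousOn (mapsTo_univ _ univ)
  have β1 := p3.comp_map hc₂.continuousOn (mapsTo_univ _ univ)
  have a1 := α1.apply_B hs
  have b1 := β1.apply_B ht
  rw [map_sub, map_smul, LinearMap.comp_apply _ _ z₁, p2, smul_eq_mul, mul_one, sub_eq_zero] at a1
  rw [map_sub, map_smul, LinearMap.comp_apply _ _ z₂, p4, smul_eq_mul, mul_one, sub_eq_zero] at b1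
  obtain ⟨W, w1, w2, w3⟩ := pad (r := n + n) (by omega) hU hc hσ
  have h1 := cup_cross n1 (α1.comp_map H.cont.continuousOn (mapsTo_univ _ univ))
    (β1.comp_map H'.cont.continuousOn (mapsTo_univ _ univ))
  rw [comp_map_eq _ _ H.cont continuous_fst, comp_map_eq _ _ H'.cont continuous_snd,
    weight₂ q₁ s₁ q₂ s₂ hF hc₁ hc₂ H H' hn hn p1 p3 (U := fun i => W i) (fun i => w1 i)
      (fun i => w2 i) (Z_mono (fun q _ => by
        obtain ⟨i, hi, h⟩ := w3 q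
        exact mem_iUnion.2 ⟨⟨i, hi⟩, h⟩) le_rfl (cross_Z n1 n1)),
    LinearMap.comp_apply _ _ ν, LinearMap.comp_apply _ _ ν, a1, b1] at h1
  exact mul_ne_zero s0 t0 h1.symm

end main

end Pool.Agent.Lib.MP_99fcc5_gt.Gen.Fld
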