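import Pool.Agent.Lib.MP_99fcc5_gt.GL
import Pool.Agent.Shared.Sing.Cup

/-! The two-sided cocycle on a free product, for two cocycles of arbitrary degrees at least two. -/

namespace Pool.Agent.Lib.MP_99fcc5_gt.Gen

open Pool.Agent.Shared.Sing Tree62

variable {G : Type}

theorem three_of_nodup' {T : Type} {f : T → G} {L : Set T} {m : List T} (h3 : 3 ≤ m.length)
    (hL : ∀ x ∈ m, x ∈ L) (h : (m.map f).Nodup) : Three f L :=
  three_of_nodup (m := m.take 3) (by rw [List.length_take]; omega)
    (fun x hx => hL x (List.mem_of_mem_take hx))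
    (by rw [List.map_take]; exact h.sublist (List.take_sublist _ _))

theorem lc_map_bd' {T : Type} (α : List G → ℚ) (h2 : ∀ l : List G, lc (R := ℚ) α (bdL ℚ l) = 0)
    (f : T → G) (l : List T) : lc (R := ℚ) (fun m => α (m.map f)) (bdL ℚ l) = 0 := by
  rw [← lc_lmap, lmap_bdL]
  exact h2 _

theorem cup_coc' {T : Type} (k : ℕ) (φ ψ : List T → ℚ)
    (hφ : ∀ l : List T, lc (R := ℚ) φ (bdL ℚ l) = 0)
    (hψ : ∀ l : List T, lc (R := ℚ) ψ (bdL ℚ l) = 0) (l : List T) (hl : k + 2 ≤ l.length) :
    lc (R := ℚ) (fun m => φ (m.take (k + 1)) * ψ (m.drop k)) (bdL ℚ l) = 0 := by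
  have e : ∀ χ : List T → ℚ, (∀ l : List T, lc (R := ℚ) χ (bdL ℚ l) = 0) →
      lc (R := ℚ) χ ∘ₗ bd = 0 := fun χ h => LinearMap.ext fun c =>
    map_eq (F := lc (R := ℚ) χ ∘ₗ bd) (G := 0) (fun l _ => by simp [h]) (mem_top c)
  have h1 := congrArg (lc (R := ℚ) ψ) (bd_capL k (lc (R := ℚ) φ) l (by omega))
  have h2 : capL (k + 1) (0 : Ch ℚ T →ₗ[ℚ] ℚ) l = 0 := by simp [capL]
  rw [← LinearMap.comp_apply, e ψ hψ, e φ hφ, h2, sub_zero, map_smul, LinearMap.zero_apply,
    eq_comm, smul_eq_mul, mul_eq_zero, or_iff_right (pow_ne_zero _ (by norm_num))] at h1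
  rw [← h1]
  refine map_eq (G := lc (R := ℚ) ψ ∘ₗ lc (capL k (lc (R := ℚ) φ))) (fun m hm => ?_) (bdL_mem l)
  have : k < m.length := by have := hm.1; omega
  simp [capL, this]

variable [Group G]

theorem aa_fin' {α : List G → ℚ} (h3 : ∀ l : List G, ¬ l.Nodup → α l = 0) (i : Bool)
    {l : List (FP G)} (hl : 3 ≤ l.length) :
    (Function.support fun v : Vx G i => α (l.map fun x => hd i (v.out⁻¹ * x))).Finite :=
  (three_finite i (List.finite_toSet l) id).subset fun _ hv =>
    three_of_nodup' hl (fun _ hx => hx) (not_not.1 fun h => hv (h3 _ h))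

/-- The two-sided cocycle. -/
noncomputable def Ph' (k : ℕ) (α β : List G → ℚ) (l : List (TT G)) : ℚ :=
  ∑ᶠ p : Vx G false × Vx G true, α ((l.take (k + 1)).map (F1 p.1.out p.2.out)) *
    β ((l.drop k).map (F2 p.1.out p.2.out))

theorem group_lemma' (α : Bool → List G → ℚ) (d : Bool → ℕ) (hd2 : ∀ b, 2 ≤ d b)
    (h1 : ∀ b (g : G) (l : List G), α b (l.map (g * ·)) = α b l)
    (h2 : ∀ b (l : List G), lc (R := ℚ) (α b) (bdL ℚ l) = 0)
    (h3 : ∀ b (l : List G), ¬ l.Nodup → α b l = 0) :
    ∃ (P : Type) (_ : Group P) (ι : Bool → G →* P) (a : Bool → List P → ℚ)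
      (Φ : List ((P × P) ⊕ P) → ℚ),
      (∀ i j (l : List G), 2 ≤ l.length → a i (l.map (ι j)) = if i = j then α i l else 0) ∧
      (∀ (x : P × P) (l : List ((P × P) ⊕ P)),
        Φ (l.map (Sum.map (x * ·) fun d => x.1 * d * x.2⁻¹)) = Φ l) ∧
      (∀ l : List ((P × P) ⊕ P), l.length = d false + d true + 2 →
        lc (R := ℚ) Φ (bdL ℚ l) = 0) ∧
      ∀ l : List (P × P), l.length = d false + d true + 1 → Φ (l.map Sum.inl) =
        a false ((l.take (d false + 1)).map Prod.fst) *
          a true ((l.drop (d false)).map Prod.snd) := by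
  have d1 := hd2 false
  have d2 := hd2 true
  have h1' : ∀ {T : Type} b (c : G) (f f' : T → G) (l : List T), (∀ t, f' t = c * f t) →
      α b (l.map f') = α b (l.map f) := fun b c f f' l h => by
    rw [← h1 b c (l.map f), List.map_map]
    exact congrArg (α b) (List.map_congr_left fun t _ => h t)
  refine ⟨FP G, inferInstance, io, fun i => aa (α i) i, Ph' (d false) (α false) (α true),
    fun i j l hl => ?_, fun x l => ?_, fun l hl => ?_, fun l hl => ?_⟩
  · have hz : ∀ v : Vx G i, ¬ (i = j ∧ v.out⁻¹ ∈ (io i).range) →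
        α i ((l.map (io j)).map fun x => hd i (v.out⁻¹ * x)) = 0 := fun v hv => by
      apply h3
      match l, hl with
      | a :: b :: r, _ => simp [hd_mul_io hv]
    dsimp only
    unfold aa
    split_ifs with hij
    · subst hij
      rw [finsum_eq_single _ (QuotientGroup.mk 1 : Vx G i) fun v hv => hz v fun h => hv (by
        rw [← QuotientGroup.out_eq' v]
        exact QuotientGroup.eq.2 (by simpa using h.2))]
      obtain ⟨c, hc⟩ := out_mk i (1 : FP G)
      rw [hc, List.map_map, h1' i c⁻¹ id _ l fun t => by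
        rw [Function.comp_apply, hd_rep, inv_one, one_mul, hd_io, id], List.map_id]
    · exact finsum_eq_zero_of_forall_eq_zero fun v => hz v fun h => hij h.1
  · unfold Ph'
    rw [← finsum_comp_equiv (Equiv.prodCongr (MulAction.toPerm x.1 : Equiv.Perm (Vx G false))
      (MulAction.toPerm x.2 : Equiv.Perm (Vx G true)))]
    refine finsum_congr fun p => ?_
    obtain ⟨c, hc⟩ := smul_out false x.1 p.1
    obtain ⟨c', hc'⟩ := smul_out true x.2 p.2
    simp only [Equiv.prodCongr_apply, Prod.map_fst, Prod.map_snd, MulAction.toPerm_apply, hc, hc',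
      ← List.map_take, ← List.map_drop, List.map_map]
    congr 1
    · exact h1' _ c⁻¹ _ _ _ fun t => by rw [Function.comp_apply, F1_rep, F1_act]
    · exact h1' _ c'⁻¹ _ _ _ fun t => by rw [Function.comp_apply, F2_rep, F2_act]
  · unfold Ph'
    rw [lc_finsum]
    · exact finsum_eq_zero_of_forall_eq_zero fun p =>
        cup_coc' _ (fun m => α false (m.map (F1 p.1.out p.2.out)))
          (fun m => α true (m.map (F2 p.1.out p.2.out)))
          (lc_map_bd' _ (h2 _) _) (lc_map_bd' _ (h2 _) _) l (by omega)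
    · intro m hm
      obtain ⟨hm1, hm2⟩ := (Finsupp.mem_supported ℚ _).1 (bdL_mem (R := ℚ) l) hm
      refine (good_finite (List.finite_toSet l)).subset fun p hp => ⟨?_, ?_⟩
      · exact three_of_nodup' (m := m.take (d false + 1)) (by rw [List.length_take]; omega)
          (fun x hx => hm2 x (List.mem_of_mem_take hx))
          (not_not.1 fun h => left_ne_zero_of_mul hp (h3 _ _ h))
      · exact three_of_nodup' (m := m.drop (d false)) (by rw [List.length_drop]; omega)
          (fun x hx => hm2 x (List.mem_of_mem_drop hx))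
          (not_not.1 fun h => right_ne_zero_of_mul hp (h3 _ _ h))
  · have f1 := aa_fin' (h3 false) false (l := (l.take (d false + 1)).map Prod.fst)
      (by rw [List.length_map, List.length_take]; omega)
    have f2 := aa_fin' (h3 true) true (l := (l.drop (d false)).map Prod.snd)
      (by rw [List.length_map, List.length_drop]; omega)
    have e : Ph' (d false) (α false) (α true) (l.map Sum.inl) = ∑ᶠ p : Vx G false × Vx G true,
        α false (((l.take (d false + 1)).map Prod.fst).map fun x => hd false (p.1.out⁻¹ * x)) *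
          α true (((l.drop (d false)).map Prod.snd).map fun x => hd true (p.2.out⁻¹ * x)) := by
      unfold Ph'
      refine finsum_congr fun p => ?_
      rw [← List.map_take, ← List.map_drop, List.map_map, List.map_map, List.map_map,
        List.map_map]
      rfl
    rw [e, finsum_curry _ ((f1.prod f2).subset fun p hp =>
      ⟨left_ne_zero_of_mul hp, right_ne_zero_of_mul hp⟩)]
    dsimp only
    unfold aa
    rw [finsum_mul]
    exact finsum_congr fun v => by rw [mul_finsum]

end Pool.Agent.Lib.MP_99fcc5_gt.Gen
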