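import Pool.Agent.Lib.MP_99fcc5_gt.H95Main
import Pool.Agent.Lib.MP_99fcc5_gt.Gen.G2
import Pool.Agent.Lib.MP_99fcc5_gt.Gen.G3

/-! Lower bounds for the number of domains of a motion planner on a connected sum of two
manifolds, from classes of arbitrary degrees. -/

set_option linter.unusedSectionVars false

namespace Pool.Agent.Lib.MP_99fcc5_gt.Gen

open Set Topology unitInterval Pool.Agent.Shared.Sing Pool.Agent.Shared.SingEZ
  Pool.Agent.Lib.MP_c77dc5_gt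

section weight

variable {A B₁ B₂ M N X : Type*} {E₁ E₂ : Type} [NormedAddCommGroup A] [NormedSpace ℝ A]
  [ProperSpace A] [TopologicalSpace E₁] [TopologicalSpace E₂] [TopologicalSpace B₁]
  [TopologicalSpace B₂] [TopologicalSpace M] [TopologicalSpace N] [TopologicalSpace X]
  [Nonempty B₁] [Nonempty B₂] [Nonempty X] [T2Space M] [T2Space N] [T2Space X] [CompactSpace X]
  [ContractibleSpace E₁] [ContractibleSpace E₂] [LocallyPathConnectedSpace B₁]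
  [LocallyPathConnectedSpace B₂]

theorem weight₂ {p₁ : E₁ → B₁} {p₂ : E₂ → B₂} (q₁ : IsCoveringMap p₁)
    (s₁ : Function.Surjective p₁) (q₂ : IsCoveringMap p₂) (s₂ : Function.Surjective p₂)
    {c₁ : M → B₁} {c₂ : N → B₂} (hc₁ : Continuous c₁) (hc₂ : Continuous c₂) {e₁ : A → M}
    {e₂ : A → N} {f₁ : X → M} {f₂ : X → N} (H : Half e₁ e₂ f₁ f₂) (H' : Half e₂ e₁ f₂ f₁)
    {k l : ℕ} (hk : 2 ≤ k) (hl : 2 ≤ l) {φ₁ : C ℚ B₁ →ₗ[ℚ] ℚ} {φ₂ : C ℚ B₂ →ₗ[ℚ] ℚ}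
    (h₁ : Shared.Sing.Coc univ k φ₁) (h₂ : Shared.Sing.Coc univ l φ₂)
    {U : Fin (k + l) → Set (X × X)} (hU : ∀ i, IsOpen (U i))
    (hσ : ∀ i, ∃ s : C(U i, C(I, X)), ∀ x, s x 0 = x.1.1 ∧ s x 1 = x.1.2)
    {z : C ℚ (X × X)} (hz : z ∈ Z ℚ (⋃ i, U i) ∅ (k + l)) :
    cup k (φ₁ ∘ₗ map fun q : X × X => c₁ (f₁ q.1)) (φ₂ ∘ₗ map fun q : X × X => c₂ (f₂ q.2)) z
      = 0 := by
  have v₁ := cov_deck q₁ s₁
  have v₂ := cov_deck q₂ s₂
  let _ : MulAction (deck p₁ × deck p₂) (E₁ × E₂) :=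
    { smul := fun g e => (g.1 • e.1, g.2 • e.2)
      one_smul := fun e => Prod.ext (one_smul _ e.1) (one_smul _ e.2)
      mul_smul := fun g h e => Prod.ext (mul_smul g.1 h.1 e.1) (mul_smul g.2 h.2 e.2) }
  have : ContinuousConstSMul (deck p₁ × deck p₂) (E₁ × E₂) :=
    ⟨fun g => (continuous_const_smul g.1).prodMap (continuous_const_smul g.2)⟩
  have cv : Cov (deck p₁ × deck p₂) (Prod.map p₁ p₂) := by
    refine ⟨fun e => ?_, s₁.prodMap s₂, fun g e => Prod.ext (v₁.inv g.1 e.1) (v₂.inv g.2 e.2),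
      fun e e' h => ?_, fun g e h => Prod.ext (v₁.free g.1 e.1 (congrArg Prod.fst h))
        (v₂.free g.2 e.2 (congrArg Prod.snd h))⟩
    · obtain ⟨a, a1, a2⟩ := v₁.loc e.1
      obtain ⟨b, b1, b2⟩ := v₂.loc e.2
      exact ⟨a.prod b, ⟨a1, b1⟩, by rw [a2, b2]; rfl⟩
    · obtain ⟨a, ha⟩ := v₁.trans e.1 e'.1 (congrArg Prod.fst h)
      obtain ⟨b, hb⟩ := v₂.trans e.2 e'.2 (congrArg Prod.snd h)
      exact ⟨(a, b), Prod.ext ha hb⟩
  obtain ⟨μ₁, l1, m1⟩ := half_lift q₁ s₁ hc₁ H H'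
  obtain ⟨μ₂, l2, m2⟩ := half_lift q₂ s₂ hc₂ H' H
  obtain ⟨y₁⟩ : Nonempty E₁ := inferInstance
  obtain ⟨y₂⟩ : Nonempty E₂ := inferInstance
  let g : Bool → X → B₁ × B₂ := fun b x => cond b (p₁ y₁, c₂ (f₂ x)) (c₁ (f₁ x), p₂ y₂)
  have hg : ∀ b, Continuous (g b) := by
    rintro (_ | _)
    exacts [(hc₁.comp H.cont).prodMk continuous_const, continuous_const.prodMk (hc₂.comp H'.cont)]
  have key := weight cv (isOpen_compl_singleton.preimage H.cont)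
    (isOpen_compl_singleton.preimage H'.cont) H.cov hg
    (μ := fun b x => cond b (y₁, μ₂ x) (μ₁ x, y₂))
    (by
      rintro (_ | _) x
      exacts [Prod.ext (l1 x) rfl, Prod.ext rfl (l2 x)])
    (m1.prodMk continuousOn_const) (continuousOn_const.prodMk m2) (d := fun b => cond b l k)
    (by rintro (_ | _); exacts [hk, hl])
    (φ := fun b => cond b (φ₂ ∘ₗ map Prod.snd) (φ₁ ∘ₗ map Prod.fst))
    (by
      rintro (_ | _)
      exacts [h₁.comp_map continuousOn_fst (mapsTo_univ _ _),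
        h₂.comp_map continuousOn_snd (mapsTo_univ _ _)]) hU hσ hz
  rw [← key]
  congr 2
  · exact LinearMap.ext fun y =>
      (congrArg φ₁ (map_map' ((hg false).comp continuous_fst) Prod.fst y)).symm
  · exact LinearMap.ext fun y =>
      (congrArg φ₂ (map_map' ((hg true).comp continuous_snd) Prod.snd y)).symm

end weight

variable {F : Type} [Field F] {X : Type*} [TopologicalSpace X] [Nonempty X]

/-- The product of a class of high weight with two zero divisors. -/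
theorem no_cover {n k l i j : ℕ} (hk : k + (i + 1) = n) (hl : l + (j + 1) = n) {μ y : C F X}
    {a b a' b' : C F X →ₗ[F] F} (hμ : μ ∈ Z F univ ∅ n)
    (ha : Shared.Sing.Coc univ k a) (hb : Shared.Sing.Coc univ l b)
    (ha' : Shared.Sing.Coc univ (i + 1) a') (hb' : Shared.Sing.Coc univ (j + 1) b')
    (h1 : a' (cap k a μ) ≠ 0) (h2 : b' (cap l b μ) ≠ 0) {O : Set X} (hy : y ∈ Z F O ∅ (j + 1))
    (h3 : cap l b μ - y ∈ B F univ ∅ (j + 1)) (h4 : ∀ v ∈ In F O (i + 1 + 1), a' v = 0)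
    {U U₁ U₂ : Set (X × X)} (o : IsOpen U) (o₁ : IsOpen U₁) (o₂ : IsOpen U₂)
    (hc : U ∪ (U₁ ∪ U₂) = univ)
    (hU : ∀ z ∈ Z F U ∅ (k + l), cup k (a ∘ₗ map Prod.fst) (b ∘ₗ map Prod.snd) z = 0)
    (s₁ : ∃ s : C(U₁, C(I, X)), ∀ x, s x 0 = x.1.1 ∧ s x 1 = x.1.2)
    (s₂ : ∃ s : C(U₂, C(I, X)), ∀ x, s x 0 = x.1.1 ∧ s x 1 = x.1.2) : False := by
  have m1 : μ ∈ Z F univ ∅ (k + (i + 1)) := hk ▸ hμ
  have m2 : μ ∈ Z F univ ∅ (l + (j + 1)) := hl ▸ hμ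
  have x1 := cap_Z ha m1
  have y1 := cap_Z hb m2
  have a1 := ha.comp_map (continuousOn_fst (β := X) (s := univ)) (mapsTo_univ _ _)
  have b1 := hb.comp_map (continuousOn_snd (α := X) (s := univ)) (mapsTo_univ _ _)
  obtain ⟨c, c1, c2⟩ := cap_shrink' o (o₁.union o₂) (p := k + l) (k := i + 1 + (j + 1))
    (hc ▸ a1.cup b1) hU (c := cross μ μ) (by
      convert cross_Z m1 m2 using 2
      · simpa using hc
      · omega)
  obtain ⟨d, d1, d2⟩ := cap_shrink' o₁ o₂ (zd_coc ha' _) (zd_sec ha' s₁) c1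
  rw [hc, ← cap_cap k l] at c2
  have e1 := cap_fst_B ha m1 m2
  have e2 := cap_snd_B hb x1 m2
  rw [univ_prod_univ] at e1 e2
  have e3 := add_mem (cap_B (k := i + 1 + (j + 1)) b1 (by convert e1 using 2; omega)) e2
  have e4 : (-1 : F) ^ (l * (i + 1)) • cross (cap k a μ) (cap l b μ) - c ∈
      B F univ ∅ (i + 1 + (j + 1)) := by
    have := sub_mem c2 e3
    rw [map_sub] at this
    convert this using 1
    abel
  have e5 := cap_fst_B (p := 0) ha' x1 y1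
  have e6 := cross_B_right x1 h3
  rw [univ_prod_univ] at e5 e6
  have e7 := cap_B (ha'.comp_map (continuousOn_snd (α := X) (s := univ)) (mapsTo_univ _ _)) e6
  have e8 : cap (i + 1) (a' ∘ₗ map Prod.snd) (cross (cap k a μ) y) = 0 := by
    rw [cap_congr (φ := a' ∘ₗ map Prod.snd) (ψ := 0) (A := univ ×ˢ O) (fun v hv => h4 _
      (map_In continuousOn_snd (fun (q : X × X) (h : q ∈ univ ×ˢ O) => h.2) hv))
      (cross_In x1.1 hy.1)]
    simpa using cap_sub (i + 1) (0 : C F (X × X) →ₗ[F] F) 0 (cross (cap k a μ) y)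
  rw [map_sub, map_sub, e8, sub_zero] at e7
  have z := zd_coc hb' univ
  have f1 := z.apply_B (cap_B (zd_coc ha' _) e4)
  have f2 := z.apply_B (B_mono (subset_univ _) le_rfl d2)
  have f3 := z.apply_B (zero_add (j + 1) ▸ e5)
  have f4 := z.apply_B e7
  rw [map_sub, zd_sec hb' s₂ d d1, sub_zero] at f2
  rw [map_sub, zd_left hb' (cap_In' a' x1.1) y1, eps_cap a' x1.1] at f3
  rw [map_sub, map_sub, f2, sub_zero, map_smul, map_smul, smul_eq_mul,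
    mul_eq_zero, or_iff_right (pow_ne_zero _ (neg_ne_zero.2 one_ne_zero)), zd.eq_1 a', cap_sub,
    map_sub, f4, sub_zero] at f1
  exact mul_ne_zero h1 h2 (by linear_combination f3 - f1)

lemma cup_cross {n : ℕ} {μ : C F X} {a b : C F X →ₗ[F] F} (hμ : μ ∈ Z F univ ∅ n)
    (ha : Shared.Sing.Coc univ n a) (hb : Shared.Sing.Coc univ n b) :
    cup n (a ∘ₗ map Prod.fst) (b ∘ₗ map Prod.snd) (cross μ μ) = a μ * b μ := by
  have e1 := cap_fst_B (p := 0) ha hμ hμ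
  rw [univ_prod_univ, zero_add] at e1
  have e2 := (hb.comp_map (continuousOn_snd (α := X) (s := univ)) (mapsTo_univ _ _)).apply_B e1
  rw [map_sub, sub_eq_zero] at e2
  rw [cup, LinearMap.comp_apply, e2, ← eps_cap a hμ.1]
  exact map_eq (F := (b ∘ₗ map Prod.snd) ∘ₗ cross.flip μ) (G := eps.smulRight (b μ))
    (fun s hs => by
      rw [LinearMap.comp_apply, LinearMap.flip_apply, single_eq_pt s hs.1, cross_pt_left _ hμ.1,
        LinearMap.comp_apply, map_map (Continuous.prodMk_right _).continuousOn hμ.1,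
        map_self (g := Prod.snd ∘ _) (fun _ _ => rfl) hμ.1]
      simp [pt]) (cap_In' (k := 1) a hμ.1)

lemma pad {m r : ℕ} (hr : m ≤ r) {U : Fin m → Set (X × X)} (hU : ∀ i, IsOpen (U i))
    (hc : ⋃ i, U i = univ) (hσ : ∀ i, ∃ s : C(U i, C(I, X)), ∀ x, s x 0 = x.1.1 ∧ s x 1 = x.1.2) :
    ∃ W : ℕ → Set (X × X), (∀ i, IsOpen (W i)) ∧
      (∀ i, ∃ s : C(W i, C(I, X)), ∀ x, s x 0 = x.1.1 ∧ s x 1 = x.1.2) ∧
      ∀ q, ∃ i < r, q ∈ W i := by
  let W : ℕ → Set (X × X) := fun i => if h : i < m then U ⟨i, h⟩ else ∅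
  refine ⟨W, fun i => ?_, fun i => ?_, fun q => ?_⟩
  · by_cases h : i < m <;> simp [W, h, hU]
  · by_cases h : i < m
    · rw [show W i = U ⟨i, h⟩ from dif_pos h]
      exact hσ _
    · rw [show W i = ∅ from dif_neg h]
      exact ⟨⟨fun x => x.2.elim, continuous_of_discreteTopology⟩, fun x => x.2.elim⟩
  · obtain ⟨i, hi⟩ := mem_iUnion.1 (hc.ge (mem_univ q))
    exact ⟨i, i.2.trans_le hr, by simpa [W] using hi⟩

/-- The class dual to a cycle in the first half. -/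
lemma dual_class {ι A M N : Type*} [Fintype ι] [NormedAddCommGroup A] [NormedSpace ℝ A]
    [ProperSpace A] [TopologicalSpace M] [TopologicalSpace N] [T2Space M] [T2Space N] [T2Space X]
    [CompactSpace X] [Nonempty M] [Nonempty N] [CompactSpace M] [CompactSpace N] {e₁ : A → M}
    {e₂ : A → N} {f₁ : X → M} {f₂ : X → N} (hM : LocEuc ι M) (hX : LocEuc ι X)
    (H : Half e₁ e₂ f₁ f₂) (H' : Half e₂ e₁ f₂ f₁) {ν : C F X} {τ : C F (X × X) →ₗ[F] F}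
    (hτ : IsThom (Fintype.card ι) ν τ) {k l i j : ℕ} (hk : k + (i + 1) = Fintype.card ι)
    (hl : l + (j + 1) = Fintype.card ι) (l0 : 1 ≤ l) {α : C F M →ₗ[F] F} {β : C F N →ₗ[F] F}
    (hα : Shared.Sing.Coc univ k α) (hβ : Shared.Sing.Coc univ l β) {z : C F M}
    (hz : z ∈ Z F univ ∅ k) (h0 : α z ≠ 0) :
    ∃ a', Shared.Sing.Coc univ (i + 1) a' ∧ a' (cap k (α ∘ₗ map f₁) ν) ≠ 0 ∧
      ∃ O y, y ∈ Z F O ∅ (j + 1) ∧ cap l (β ∘ₗ map f₂) ν - y ∈ B F univ ∅ (j + 1) ∧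
        ∀ v ∈ In F O (i + 1 + 1), a' v = 0 := by
  obtain ⟨l, rfl⟩ := Nat.exists_eq_add_of_le' l0
  obtain ⟨z₁, z1, z2⟩ := half_cycle' hM H (by omega) hz
  have z3 := Z_mono (subset_univ _) le_rfl z1
  have a1 := hα.comp_map H.cont.continuousOn (mapsTo_univ _ univ)
  have b1 := hβ.comp_map H'.cont.continuousOn (mapsTo_univ _ univ)
  refine ⟨_, hτ.dual_coc hk z3, fun h => h0 ?_, ?_⟩
  · have := hα.apply_B z2
    rw [LinearMap.comp_apply] at h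
    rwa [map_sub, ← LinearMap.comp_apply α, hτ.pd hX hk a1 z3, h, mul_zero, sub_zero] at this
  obtain ⟨L, l1, l2, l3⟩ := exists_compact z1.1
  have l4 : f₁ ⁻¹' {e₁ 0}ᶜ ∪ Lᶜ = univ := by
    rwa [← compl_subset_iff_union, compl_subset_compl]
  obtain ⟨y, y1, y2⟩ := cap_shrink' (isOpen_compl_singleton.preimage H.cont)
    l1.isClosed.isOpen_compl (l4 ▸ b1) (fun w hw => hβ.apply_B (half_null' H' H hw))
    (k := j + 1) (l4 ▸ hl ▸ hτ.cyc)
  exact ⟨_, y, y1, l4 ▸ y2, hτ.dual_zero hk disjoint_compl_right l3⟩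

section main

variable {n : ℕ} {M N B₁ B₂ : Type*} {E₁ E₂ : Type} [TopologicalSpace M] [TopologicalSpace N]
  [TopologicalSpace B₁] [TopologicalSpace B₂] [TopologicalSpace E₁] [TopologicalSpace E₂]
  [Nonempty B₁] [Nonempty B₂] [T2Space M] [T2Space N] [CompactSpace M] [CompactSpace N]
  [ConnectedSpace M] [ConnectedSpace N] [ChartedSpace (EuclideanSpace ℝ (Fin n)) M]
  [ChartedSpace (EuclideanSpace ℝ (Fin n)) N] [ContractibleSpace E₁] [ContractibleSpace E₂]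
  [LocallyPathConnectedSpace B₁] [LocallyPathConnectedSpace B₂] {p₁ : E₁ → B₁} {p₂ : E₂ → B₂}
  {c₁ : M → B₁} {c₂ : N → B₂} {e₁ : EuclideanSpace ℝ (Fin n) → M}
  {e₂ : EuclideanSpace ℝ (Fin n) → N} {f₁ : X → M} {f₂ : X → N}

lemma locEuc_of (n : ℕ) (M : Type*) [TopologicalSpace M]
    [ChartedSpace (EuclideanSpace ℝ (Fin n)) M] : LocEuc (Fin n) M := fun x =>
  ⟨(chartAt (EuclideanSpace ℝ _) x).transHomeomorph (EuclideanSpace.equiv _ ℝ).toHomeomorph,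
    mem_chart_source _ _⟩

lemma one_lt_rank (hn : 2 ≤ n) : 1 < Module.rank ℝ (EuclideanSpace ℝ (Fin n)) := by
  rw [← Module.finrank_eq_rank, finrank_euclideanSpace_fin]
  norm_cast

lemma comp_map_eq {Y Y' Y'' Y₀ : Type*} [TopologicalSpace Y] [TopologicalSpace Y']
    [TopologicalSpace Y''] [TopologicalSpace Y₀] [Nonempty Y] [Nonempty Y'] [Nonempty Y'']
    [Nonempty Y₀] (φ : C ℚ Y'' →ₗ[ℚ] ℚ) (c : Y' → Y'') {f : Y → Y'} {r : Y₀ → Y}
    (hf : Continuous f) (hr : Continuous r) :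
    ((φ ∘ₗ map c) ∘ₗ map f) ∘ₗ map r = φ ∘ₗ map fun q => c (f (r q)) :=
  LinearMap.ext fun y => congrArg φ ((congrArg (map c) (map_map' hr f y)).trans
    (map_map' (hf.comp hr) c y))

theorem add_three_le {k l : ℕ} (k2 : 2 ≤ k) (l2 : 2 ≤ l) (kn : k < n) (ln : l < n)
    (q₁ : IsCoveringMap p₁) (s₁ : Function.Surjective p₁) (q₂ : IsCoveringMap p₂)
    (s₂ : Function.Surjective p₂) (hc₁ : Continuous c₁) (hc₂ : Continuous c₂)
    {μ₁ z₁ : C ℚ M} {μ₂ z₂ : C ℚ N} (m1 : μ₁ ∈ Z ℚ univ ∅ n) (m2 : μ₁ ∉ B ℚ univ ∅ n)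
    (m3 : μ₂ ∈ Z ℚ univ ∅ n) (m4 : μ₂ ∉ B ℚ univ ∅ n) (z1 : z₁ ∈ Z ℚ univ ∅ k)
    (z2 : map c₁ z₁ ∉ B ℚ univ ∅ k) (z3 : z₂ ∈ Z ℚ univ ∅ l) (z4 : map c₂ z₂ ∉ B ℚ univ ∅ l)
    (H : Half e₁ e₂ f₁ f₂) (H' : Half e₂ e₁ f₂ f₁) {m : ℕ} {U : Fin m → Set (X × X)}
    (hU : ∀ i, IsOpen (U i)) (hc : ⋃ i, U i = univ)
    (hσ : ∀ i, ∃ s : C(U i, C(I, X)), ∀ x, s x 0 = x.1.1 ∧ s x 1 = x.1.2) : k + l + 3 ≤ m := by
  by_contra hm
  have := H.t2 H'
  have := H.compact H'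
  have hM := locEuc_of n M
  have hN := locEuc_of n N
  have hX := H.locEuc (n := n) H'
  have e := Fintype.card_fin n
  obtain ⟨ν, n1, n2⟩ := exists_fund_sum' hX H H' (one_lt_rank (by omega)) (e.symm ▸ m1)
    (fund_of_cycle hM (e.symm ▸ m1) (e.symm ▸ m2)) (e.symm ▸ m3)
    (fund_of_cycle hN (e.symm ▸ m3) (e.symm ▸ m4))
  obtain ⟨τ, hτ⟩ := exists_isThom hX n1 n2
  obtain ⟨φ₁, p1, -, p2⟩ := exists_coc z2
  obtain ⟨φ₂, p3, -, p4⟩ := exists_coc z4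
  have hk : k + (n - k - 1 + 1) = Fintype.card (Fin n) := by omega
  have hl : l + (n - l - 1 + 1) = Fintype.card (Fin n) := by omega
  have α1 := p1.comp_map hc₁.continuousOn (mapsTo_univ _ univ)
  have β1 := p3.comp_map hc₂.continuousOn (mapsTo_univ _ univ)
  obtain ⟨a', a1, a2, O, y, y1, y2, y3⟩ := dual_class hM hX H H' hτ hk hl (by omega) α1 β1 z1
    (by rw [LinearMap.comp_apply, p2]; exact one_ne_zero)
  obtain ⟨b', b1, b2, -⟩ := dual_class hN hX H' H hτ hl hk (by omega) β1 α1 z3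
    (by rw [LinearMap.comp_apply, p4]; exact one_ne_zero)
  obtain ⟨W, w1, w2, w3⟩ := pad (r := k + l + 2) (by omega) hU hc hσ
  refine no_cover hk hl hτ.cyc (α1.comp_map H.cont.continuousOn (mapsTo_univ _ univ))
    (β1.comp_map H'.cont.continuousOn (mapsTo_univ _ univ)) a1 b1 a2 b2 y1 y2 y3
    (isOpen_iUnion fun i : Fin (k + l) => w1 i) (w1 (k + l)) (w1 (k + l + 1))
    (eq_univ_of_forall fun q => ?_) (fun w hw => ?_) (w2 _) (w2 _)
  · obtain ⟨i, hi, h5⟩ := w3 q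
    by_cases h : i < k + l
    · exact Or.inl (mem_iUnion.2 ⟨⟨i, h⟩, h5⟩)
    · rcases (by omega : i = k + l ∨ i = k + l + 1) with rfl | rfl
      exacts [Or.inr (Or.inl h5), Or.inr (Or.inr h5)]
  · rw [comp_map_eq _ _ H.cont continuous_fst, comp_map_eq _ _ H'.cont continuous_snd]
    exact weight₂ q₁ s₁ q₂ s₂ hc₁ hc₂ H H' k2 l2 p1 p3 (fun i => w1 i) (fun i => w2 i) hw

theorem two_mul_lt (hn : 2 ≤ n) (q₁ : IsCoveringMap p₁) (s₁ : Function.Surjective p₁)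
    (q₂ : IsCoveringMap p₂) (s₂ : Function.Surjective p₂) (hc₁ : Continuous c₁)
    (hc₂ : Continuous c₂) {z₁ : C ℚ M} {z₂ : C ℚ N} (z1 : z₁ ∈ Z ℚ univ ∅ n)
    (z2 : map c₁ z₁ ∉ B ℚ univ ∅ n) (z3 : z₂ ∈ Z ℚ univ ∅ n) (z4 : map c₂ z₂ ∉ B ℚ univ ∅ n)
    (H : Half e₁ e₂ f₁ f₂) (H' : Half e₂ e₁ f₂ f₁) {m : ℕ} {U : Fin m → Set (X × X)}
    (hU : ∀ i, IsOpen (U i)) (hc : ⋃ i, U i = univ)
    (hσ : ∀ i, ∃ s : C(U i, C(I, X)), ∀ x, s x 0 = x.1.1 ∧ s x 1 = x.1.2) : 2 * n + 1 ≤ m := by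
  by_contra hm
  have := H.t2 H'
  have := H.compact H'
  have hM := locEuc_of n M
  have hN := locEuc_of n N
  have hX := H.locEuc (n := n) H'
  have e := Fintype.card_fin n
  have m2 : z₁ ∉ B ℚ univ ∅ n := fun h => z2 (map_B hc₁.continuousOn (empty_subset _)
    (mapsTo_univ _ _) (mapsTo_empty _ _) h)
  have m4 : z₂ ∉ B ℚ univ ∅ n := fun h => z4 (map_B hc₂.continuousOn (empty_subset _)
    (mapsTo_univ _ _) (mapsTo_empty _ _) h)
  obtain ⟨ν, n1, n2⟩ := exists_fund_sum' hX H H' (one_lt_rank hn) (e.symm ▸ z1)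
    (fund_of_cycle hM (e.symm ▸ z1) (e.symm ▸ m2)) (e.symm ▸ z3)
    (fund_of_cycle hN (e.symm ▸ z3) (e.symm ▸ m4))
  obtain ⟨s, s0, hs⟩ := half_degree hM hX H H' (one_lt_rank hn) (e.symm ▸ z1) (e.symm ▸ m2) n1 n2
  obtain ⟨t, t0, ht⟩ := half_degree hN hX H' H (one_lt_rank hn) (e.symm ▸ z3) (e.symm ▸ m4) n1 n2
  rw [e] at n1 hs ht
  obtain ⟨φ₁, p1, -, p2⟩ := exists_coc z2
  obtain ⟨φ₂, p3, -, p4⟩ := exists_coc z4
  have α1 := p1.comp_map hc₁.continuousOn (mapsTo_univ _ univ)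
  have β1 := p3.comp_map hc₂.continuousOn (mapsTo_univ _ univ)
  have a1 := α1.apply_B hs
  have b1 := β1.apply_B ht
  rw [map_sub, map_smul, LinearMap.comp_apply _ _ z₁, p2, smul_eq_mul, mul_one, sub_eq_zero] at a1
  rw [map_sub, map_smul, LinearMap.comp_apply _ _ z₂, p4, smul_eq_mul, mul_one, sub_eq_zero] at b1
  obtain ⟨W, w1, w2, w3⟩ := pad (r := n + n) (by omega) hU hc hσ
  have h1 := cup_cross n1 (α1.comp_map H.cont.continuousOn (mapsTo_univ _ univ))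
    (β1.comp_map H'.cont.continuousOn (mapsTo_univ _ univ))
  rw [comp_map_eq _ _ H.cont continuous_fst, comp_map_eq _ _ H'.cont continuous_snd,
    weight₂ q₁ s₁ q₂ s₂ hc₁ hc₂ H H' hn hn p1 p3 (U := fun i => W i) (fun i => w1 i)
      (fun i => w2 i) (Z_mono (fun q _ => by
        obtain ⟨i, hi, h⟩ := w3 q
        exact mem_iUnion.2 ⟨⟨i, hi⟩, h⟩) le_rfl (cross_Z n1 n1)),
    LinearMap.comp_apply _ _ ν, LinearMap.comp_apply _ _ ν, a1, b1] at h1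
  exact mul_ne_zero s0 t0 h1.symm

end main

end Pool.Agent.Lib.MP_99fcc5_gt.Gen
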