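import Pool.Agent.Lib.MP_c77dc5_gt.Conn

/-! The classical upper bound: a compact connected `n`-manifold has a motion planner with
`2 n + 1` domains. -/

set_option linter.unusedSectionVars false

namespace Pool.Agent.Lib.MP_99fcc5_gt.Gen

open Set Metric Topology unitInterval Pool.Agent.Shared.Sing Pool.Agent.Lib.MP_c77dc5_gt

section cubes

variable {ι : Type*} [Fintype ι] {ε s : ℝ} {z z' : ι → ℤ} {x : ι → ℝ}

/-- The open cubes of a shifted grid. -/
def cube (ε s : ℝ) (z : ι → ℤ) : Set (ι → ℝ) :=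
  ⋂ i, {x | (z i : ℝ) < x i / ε - s} ∩ {x | x i / ε - s < z i + 1}

lemma cube_open : IsOpen (cube ε s z) := isOpen_iInter_of_finite fun _ =>
  (isOpen_lt continuous_const (by fun_prop)).inter (isOpen_lt (by fun_prop) continuous_const)

lemma mem_cube : x ∈ cube ε s z ↔ ∀ i, (z i : ℝ) < x i / ε - s ∧ x i / ε - s < z i + 1 :=
  mem_iInter

lemma cube_eq (h : x ∈ cube ε s z) (h' : x ∈ cube ε s z') : z = z' := funext fun i =>
  (Int.floor_eq_iff.2 ⟨(mem_cube.1 h i).1.le, (mem_cube.1 h i).2⟩).symm.trans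
    (Int.floor_eq_iff.2 ⟨(mem_cube.1 h' i).1.le, (mem_cube.1 h' i).2⟩)

lemma cube_ball (hε : 0 < ε) (h : x ∈ cube ε s z) : cube ε s z ⊆ ball x ε := fun y hy =>
  (dist_pi_lt_iff hε).2 fun i => by
    obtain ⟨h1, h2⟩ : (z i : ℝ) < x i / ε - s ∧ x i / ε - s < z i + 1 := mem_iInter.1 h i
    obtain ⟨h3, h4⟩ : (z i : ℝ) < y i / ε - s ∧ y i / ε - s < z i + 1 := mem_iInter.1 hy i
    have e : y i - x i = ε * (y i / ε - x i / ε) := by field_simp
    rw [Real.dist_eq, abs_lt, e]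
    constructor <;> nlinarith

lemma exists_cube (ε : ℝ) (x : ι → ℝ) : ∃ (j : Fin (Fintype.card ι + 1)) (z : ι → ℤ),
    x ∈ cube ε ((j : ℕ) / (Fintype.card ι + 1)) z := by
  by_contra h
  have h1 : ∀ j : Fin (Fintype.card ι + 1), ∃ (i : ι) (m : ℤ),
      x i / ε - (j : ℕ) / (Fintype.card ι + 1) = m := fun j => by
    by_contra h'
    exact h ⟨j, fun i => ⌊_⌋, mem_cube.2 fun i => ⟨(Int.floor_le _).lt_of_ne
      fun e => h' ⟨i, _, e.symm⟩, Int.lt_floor_add_one _⟩⟩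
  choose i m hm using h1
  obtain ⟨j, j', hne, e⟩ := Fintype.exists_ne_map_eq_of_card_lt i (by simp)
  have h2 := hm j'
  rw [← e] at h2
  have h3 : ((j' : ℕ) : ℝ) - (j : ℕ) = (m j - m j') * (Fintype.card ι + 1) := by
    rw [← hm j, ← h2]
    field_simp
    ring
  have h4 : ((j' : ℕ) : ℤ) - (j : ℕ) = (m j - m j') * (Fintype.card ι + 1) := by exact_mod_cast h3
  have h5 := j.2
  have h6 := j'.2
  rcases lt_trichotomy (m j) (m j') with h | h | h
  · nlinarith
  · exact hne (Fin.ext (by rw [h, sub_self, zero_mul] at h4; omega))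
  · nlinarith

end cubes

/-- A local property of open sets that passes to disjoint unions holds on the members of a cover
of a compact `d`-manifold by `d + 1` open sets. -/
theorem cover_dim {Y ι : Type*} [TopologicalSpace Y] [CompactSpace Y] [T2Space Y] [Fintype ι]
    (hY : LocEuc ι Y) (P : Set Y → Prop) (h0 : P ∅) (mono : ∀ U V, V ⊆ U → P U → P V)
    (disj : ∀ T : Option (ι → ℤ) → Set Y, (∀ a, IsOpen (T a)) →
      (∀ a b, ∀ x ∈ T a, x ∈ T b → a = b) → (∀ a, P (T a)) → P (⋃ a, T a))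
    (loc : ∀ y, ∃ G, IsOpen G ∧ y ∈ G ∧ P G) : ∃ U : Fin (Fintype.card ι + 1) → Set Y,
      (∀ j, IsOpen (U j)) ∧ (∀ j, P (U j)) ∧ univ ⊆ ⋃ j, U j := by
  classical
  let Q (A : Set Y) : Prop := ∃ U : Fin (Fintype.card ι + 1) → Set Y,
    (∀ j, IsOpen (U j)) ∧ (∀ j, P (U j)) ∧ A ⊆ ⋃ j, U j
  have key : ∀ A, IsClosed A → Q A → ∃ A', IsClosed A' ∧ A ∪ univ ⊆ A' ∧ Q A' := by
    refine isCompact_univ.induction_on
      (p := fun s => ∀ A, IsClosed A → Q A → ∃ A', IsClosed A' ∧ A ∪ s ⊆ A' ∧ Q A')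
      (fun A h h' => ⟨A, h, by simp, h'⟩)
      (fun s t hst h A a1 a2 => (h A a1 a2).imp fun A' h' =>
        ⟨h'.1, (union_subset_union_right _ hst).trans h'.2.1, h'.2.2⟩)
      (fun s t h h' A a1 a2 => ?_) fun y _ => ?_
    · obtain ⟨A', b1, b2, b3⟩ := h A a1 a2
      obtain ⟨A'', c1, c2, c3⟩ := h' A' b1 b3
      exact ⟨A'', c1, union_assoc A s t ▸ (union_subset_union_left _ b2).trans c2, c3⟩
    obtain ⟨φ, hy⟩ := hY y
    obtain ⟨K, k1, k2, k3⟩ := exists_compact_subset φ.open_source hy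
    refine ⟨K, mem_nhdsWithin_of_mem_nhds (mem_interior_iff_mem_nhds.1 k2), ?_⟩
    rintro A hA ⟨U, u1, u2, u3⟩
    refine ⟨A ∪ K, hA.union k1.isClosed, subset_rfl, ?_⟩
    obtain ⟨V, v1, v2, v3⟩ := exists_subset_iUnion_closure_subset hA u1 (fun _ _ => toFinite _) u3
    have hG : ∀ x : Y, ∃ G, IsOpen G ∧ x ∈ G ∧ P G ∧ ∀ j, G ⊆ U j ∨ G ⊆ (V j)ᶜ := fun x => by
      obtain ⟨G, g1, g2, g3⟩ := loc x
      refine ⟨G ∩ ⋂ j, if x ∈ U j then U j else (closure (V j))ᶜ,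
        g1.inter (isOpen_iInter_of_finite fun j => ?_), ⟨g2, mem_iInter.2 fun j => ?_⟩,
        mono _ _ inter_subset_left g3, fun j => ?_⟩
      · split_ifs
        exacts [u1 j, isClosed_closure.isOpen_compl]
      · split_ifs with h
        exacts [h, fun h' => h (v3 j h')]
      · by_cases h : x ∈ U j
        · exact Or.inl fun w hw => by simpa [h] using mem_iInter.1 hw.2 j
        · exact Or.inr fun w hw hv => (by simpa [h] using mem_iInter.1 hw.2 j :
            w ∉ closure (V j)) (subset_closure hv)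
    choose G g1 g2 g3 g4 using hG
    obtain ⟨δ, hδ, hL⟩ := lebesgue_number_lemma_of_metric
      (k1.image_of_continuousOn (φ.continuousOn.mono k3))
      (c := fun x => φ.target ∩ φ.symm ⁻¹' G x) (fun x => φ.isOpen_inter_preimage_symm (g1 x)) (by
        rintro _ ⟨x, hx, rfl⟩
        exact mem_iUnion.2 ⟨x, φ.map_source (k3 hx), by
          rw [mem_preimage, φ.left_inv (k3 hx)]; exact g2 x⟩)
    let T (j : Fin (Fintype.card ι + 1)) (z : ι → ℤ) : Set Y :=
      φ.source ∩ φ ⁻¹' cube δ ((j : ℕ) / (Fintype.card ι + 1)) z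
    have t1 : ∀ j z, IsOpen (T j z) := fun j z => φ.isOpen_inter_preimage cube_open
    have t2 : ∀ j z, (T j z ∩ K).Nonempty → ∃ x, T j z ⊆ G x := by
      rintro j z ⟨w, h1, h2⟩
      obtain ⟨x, hx⟩ := hL _ (mem_image_of_mem φ h2)
      exact ⟨x, fun w' hw' => φ.left_inv hw'.1 ▸ (hx (cube_ball hδ h1.2 hw'.2)).2⟩
    let T' (j : Fin (Fintype.card ι + 1)) : Option (ι → ℤ) → Set Y
      | none => V j ∪ ⋃ z, ⋃ _ : T j z ⊆ U j, T j z
      | some z => ⋃ _ : (T j z ∩ K).Nonempty ∧ ¬ T j z ⊆ U j, T j z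
    have t3 : ∀ j a, IsOpen (T' j a) := by
      rintro j (_ | z)
      exacts [(v2 j).union (isOpen_iUnion fun z => isOpen_iUnion fun _ => t1 j z),
        isOpen_iUnion fun _ => t1 j z]
    have t4 : ∀ j z, ∀ x ∈ T' j none, x ∉ T' j (some z) := fun j z x h h' => by
      obtain ⟨⟨a1, a2⟩, a3⟩ := mem_iUnion.1 h'
      rcases h with h | h
      · obtain ⟨w, hw⟩ := t2 j z a1
        exact (g4 w j).elim (fun e => a2 (hw.trans e)) fun e => e (hw a3) h
      · obtain ⟨z', b1, b2⟩ := mem_iUnion₂.1 h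
        exact a2 (cube_eq a3.2 b2.2 ▸ b1)
    refine ⟨fun j => ⋃ a, T' j a, fun j => isOpen_iUnion (t3 j),
      fun j => disj _ (t3 j) ?_ ?_, ?_⟩
    · rintro (_ | z) (_ | z') x h h'
      · rfl
      · exact (t4 j _ x h h').elim
      · exact (t4 j _ x h' h).elim
      · exact congrArg some (cube_eq (mem_iUnion.1 h).2.2 (mem_iUnion.1 h').2.2)
    · rintro (_ | z)
      · exact mono _ _ (union_subset (subset_closure.trans (v3 j))
          (iUnion₂_subset fun _ h => h)) (u2 j)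
      · by_cases h : (T j z ∩ K).Nonempty
        · obtain ⟨w, hw⟩ := t2 j z h
          exact mono _ _ (iUnion_subset fun _ => hw) (g3 w)
        · exact mono _ _ (iUnion_subset fun h' => (h h'.1).elim) h0
    · rintro x (hx | hx)
      · obtain ⟨j, hj⟩ := mem_iUnion.1 (v1 hx)
        exact mem_iUnion₂.2 ⟨j, none, Or.inl hj⟩
      · obtain ⟨j, z, h⟩ := exists_cube δ (φ x)
        have h1 : x ∈ T j z := ⟨k3 hx, h⟩
        by_cases h2 : T j z ⊆ U j
        · exact mem_iUnion₂.2 ⟨j, none, Or.inr (mem_iUnion₂.2 ⟨z, h2, h1⟩)⟩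
        · exact mem_iUnion₂.2 ⟨j, some z, mem_iUnion.2 ⟨⟨⟨x, h1, hx⟩, h2⟩, h1⟩⟩
  obtain ⟨A, -, h1, U, u1, u2, u3⟩ := key ∅ isClosed_empty
    ⟨fun _ => ∅, fun _ => isOpen_empty, fun _ => h0, empty_subset _⟩
  exact ⟨U, u1, u2, (subset_union_right.trans h1).trans u3⟩

variable {ι X : Type*} [Fintype ι] [TopologicalSpace X]

lemma loc_null (hX : LocEuc ι X) (x : X) : ∃ G, IsOpen G ∧ x ∈ G ∧ IsPathConnected G ∧
    ∀ (Z : Type _) [TopologicalSpace Z] (f : C(Z, X)), (∀ z, f z ∈ G) →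
      f.Homotopic (.const Z x) := by
  obtain ⟨φ, hx⟩ := hX x
  obtain ⟨r, hr, h⟩ := Metric.isOpen_iff.1 φ.open_target _ (φ.map_source hx)
  refine ⟨φ.source ∩ φ ⁻¹' ball (φ x) r, φ.isOpen_inter_preimage isOpen_ball,
    ⟨hx, mem_ball_self hr⟩, ?_, fun Z _ f hf => ?_⟩
  · rw [← φ.symm_image_eq_source_inter_preimage h]
    exact ((convex_ball _ _).isPathConnected (nonempty_ball.2 hr)).image'
      (φ.continuousOn_symm.mono h)
  have h1 : Continuous fun z => φ (f z) :=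
    φ.continuousOn.comp_continuous f.continuous fun z => (hf z).1
  have h2 : Continuous fun q : I × Z => (q.1 : ℝ) := by fun_prop
  refine ⟨⟨⟨fun q => φ.symm ((1 - (q.1 : ℝ)) • φ (f q.2) + (q.1 : ℝ) • φ x),
    φ.continuousOn_symm.comp_continuous (((continuous_const.sub h2).smul
      (h1.comp continuous_snd)).add (h2.smul continuous_const)) fun q => h (convex_ball _ _ (hf q.2).2
      (mem_ball_self hr) (sub_nonneg.2 q.1.2.2) q.1.2.1 (by ring))⟩, fun z => ?_, fun z => ?_⟩⟩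
  · simp [φ.left_inv (hf z).1]
  · simp [φ.left_inv hx]

theorem exists_planner [CompactSpace X] [T2Space X] [ConnectedSpace X] (hX : LocEuc ι X) :
    ∃ U : Fin (Fintype.card (ι ⊕ ι) + 1) → Set (X × X), (∀ i, IsOpen (U i)) ∧ ⋃ i, U i = univ ∧
      ∀ i, ∃ s : C(U i, C(I, X)), ∀ x, s x 0 = x.1.1 ∧ s x 1 = x.1.2 := by
  classical
  choose G g1 g2 g3 g4 using loc_null hX
  have hJ : ∀ x y : X, Joined x y := fun x y => by
    have h1 : ∀ a b, b ∈ G a → Joined a b := fun a b h => (g3 a).joinedIn _ (g2 a) _ h |>.joined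
    have : IsClopen {y | Joined x y} :=
      ⟨isOpen_compl_iff.1 (isOpen_iff_mem_nhds.2 fun a ha => Filter.mem_of_superset
        ((g1 a).mem_nhds (g2 a)) fun b hb h => ha (Joined.trans h (h1 a b hb).symm)),
       isOpen_iff_mem_nhds.2 fun a ha => Filter.mem_of_superset ((g1 a).mem_nhds (g2 a))
        fun b hb => Joined.trans ha (h1 a b hb)⟩
    exact (this.eq_univ ⟨x, Joined.refl x⟩).ge (mem_univ y)
  obtain ⟨U, u1, u2, u3⟩ := cover_dim (locEuc_prod hX hX)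
    (fun U => ∃ s : X × X → C(I, X), ContinuousOn s U ∧ ∀ q ∈ U, s q 0 = q.1 ∧ s q 1 = q.2)
    ⟨fun q => .const _ q.1, continuousOn_empty _, fun _ h => h.elim⟩
    (fun U V h ⟨s, s1, s2⟩ => ⟨s, s1.mono h, fun q hq => s2 q (h hq)⟩)
    (fun T t1 t2 t3 => by
      choose s s1 s2 using t3
      have e : ∀ a, ∀ q ∈ T a, (if h : ∃ a, q ∈ T a then s h.choose q else s none q) = s a q :=
        fun a q hq => by
          have h : ∃ a, q ∈ T a := ⟨a, hq⟩
          rw [dif_pos h, t2 _ _ q h.choose_spec hq]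
      refine ⟨fun q => if h : ∃ a, q ∈ T a then s h.choose q else s none q,
        ContinuousOn.iUnion_of_isOpen (fun a => (s1 a).congr (e a)) t1, fun q hq => ?_⟩
      obtain ⟨a, ha⟩ := mem_iUnion.1 hq
      simp only [e a q ha]
      exact s2 a q ha)
    fun y => by
      refine ⟨G y.1 ×ˢ G y.2, (g1 _).prod (g1 _), ⟨g2 _, g2 _⟩, ?_⟩
      obtain ⟨γ⟩ := hJ y.1 y.2
      have h1 := g4 y.1 (G y.1 ×ˢ G y.2 : Set (X × X)) ⟨fun q => q.1.1, by fun_prop⟩ fun q => q.2.1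
      have h2 := g4 y.2 (G y.1 ×ˢ G y.2 : Set (X × X)) ⟨fun q => q.1.2, by fun_prop⟩ fun q => q.2.2
      have h3 : (ContinuousMap.const (G y.1 ×ˢ G y.2 : Set (X × X)) y.1).Homotopic
          (.const _ y.2) := ⟨⟨⟨fun q => γ q.1, by fun_prop⟩, fun _ => by simp, fun _ => by simp⟩⟩
      obtain ⟨H⟩ := (h1.trans h3).trans h2.symm
      let s := (H.toContinuousMap.comp ContinuousMap.prodSwap).curry
      refine ⟨fun q => if h : q ∈ G y.1 ×ˢ G y.2 then s ⟨q, h⟩ else .const _ q.1,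
        continuousOn_iff_continuous_domRestrict.2 (s.continuous.congr fun q => by
          rw [domRestrict_apply, dif_pos q.2]),
        fun q hq => ?_⟩
      simp only [dif_pos hq]
      exact ⟨H.apply_zero ⟨q, hq⟩, H.apply_one ⟨q, hq⟩⟩
  refine ⟨U, u1, eq_univ_of_univ_subset u3, fun i => ?_⟩
  obtain ⟨s, s1, s2⟩ := u2 i
  exact ⟨⟨_, s1.domRestrict⟩, fun q => s2 q q.2⟩

variable {A M N : Type*} [NormedAddCommGroup A] [NormedSpace ℝ A] [ProperSpace A]
  [TopologicalSpace M] [TopologicalSpace N] [T2Space M] [T2Space N]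

lemma punct_conn [PreconnectedSpace M] (hA : 1 < Module.rank ℝ A) {e : A → M}
    (he : IsOpenEmbedding e) : IsPreconnected ({e 0}ᶜ : Set M) := by
  have hD := ((isConnected_compl_singleton_of_one_lt_rank hA 0).image e
    he.continuous.continuousOn).isPreconnected
  have hs : e '' {0}ᶜ ⊆ {e 0}ᶜ := by
    rintro _ ⟨v, hv, rfl⟩ h
    exact hv (he.injective h)
  have key : ∀ u v : Set M, IsOpen u → IsOpen v → {e 0}ᶜ ⊆ u ∪ v → {e 0}ᶜ ∩ (u ∩ v) = ∅ →
      e '' {0}ᶜ ⊆ u → {e 0}ᶜ ⊆ u := fun u v hu hv h1 h2 h3 => by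
    have h4 : ∀ y ∈ u ∪ range e, y ≠ e 0 → y ∈ u := by
      rintro y (h | ⟨w, rfl⟩) hy
      exacts [h, h3 ⟨w, fun h => hy (congrArg e h), rfl⟩]
    rcases isPreconnected_univ.subset_or_subset (hu.union he.isOpen_range)
      (hv.inter (isOpen_compl_singleton (x := e 0)))
      (disjoint_left.2 fun y h h' => h2.le ⟨h'.2, h4 y h h'.2, h'.1⟩) (fun y _ => by
        by_cases h : y = e 0
        · exact Or.inl (Or.inr ⟨0, h.symm⟩)
        · exact (h1 h).imp Or.inl fun h' => ⟨h', h⟩) with h | h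
    · exact fun y hy => h4 y (h trivial) hy
    · exact ((h (mem_univ (e 0))).2 rfl).elim
  refine isPreconnected_iff_subset_of_disjoint.2 fun u v hu hv h1 h2 => ?_
  rcases isPreconnected_iff_subset_of_disjoint.1 hD u v hu hv (hs.trans h1)
    (eq_empty_of_subset_empty fun y hy => h2.le ⟨hs hy.1, hy.2⟩) with h | h
  · exact Or.inl (key u v hu hv h1 h2 h)
  · exact Or.inr (key v u hv hu (union_comm u v ▸ h1) (inter_comm u v ▸ h2) h)

lemma half_conn [PreconnectedSpace M] (hA : 1 < Module.rank ℝ A) {e₁ : A → M} {e₂ : A → N}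
    {f₁ : X → M} {f₂ : X → N} (H : Half e₁ e₂ f₁ f₂) : IsPreconnected (f₁ ⁻¹' {e₁ 0}ᶜ) := by
  obtain ⟨φ, rfl, h1, h2⟩ := H.chart
  rw [← h1, ← φ.symm_image_target_eq_source]
  exact (h2 ▸ punct_conn hA H.emb).image _ φ.continuousOn_symm

lemma sum_conn [PreconnectedSpace M] [PreconnectedSpace N] [Nonempty X]
    (hA : 1 < Module.rank ℝ A) {e₁ : A → M} {e₂ : A → N} {f₁ : X → M} {f₂ : X → N}
    (H : Half e₁ e₂ f₁ f₂) (H' : Half e₂ e₁ f₂ f₁) {x : X} (h1 : f₁ x ≠ e₁ 0) (h2 : f₂ x ≠ e₂ 0) :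
    ConnectedSpace X where
  isPreconnected_univ := by
    rw [← eq_univ_of_forall (s := f₁ ⁻¹' {e₁ 0}ᶜ ∪ f₂ ⁻¹' {e₂ 0}ᶜ) H.cov]
    exact (half_conn hA H).union x h1 h2 (half_conn hA H')
  toNonempty := inferInstance

end Pool.Agent.Lib.MP_99fcc5_gt.Gen
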